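import Mathlib

/-!
Elementary counting facts in finite groups: number of square roots, conjugating elements,
commuting pairs and commuting tuples.
-/

namespace Pool.Agent.StabCay

open Finset

section basic

variable {G : Type*} [Group G] [Fintype G] [DecidableEq G]

/-- number of commuting pairs -/
def numComm (G : Type*) [Group G] [Fintype G] [DecidableEq G] : ℕ :=
  ∑ g : G, (univ.filter (fun h : G => h * g = g * h)).card

/-- the number of `g` conjugating `t` to `t'` is at most the size of the centraliser of `t` -/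
lemma card_conj_le (t t' : G) :
    (univ.filter (fun g : G => g * t * g⁻¹ = t')).card
      ≤ (univ.filter (fun h : G => h * t = t * h)).card := by
  rcases (univ.filter (fun g : G => g * t * g⁻¹ = t')).eq_empty_or_nonempty with h0 | ⟨g0, hg0⟩
  · rw [h0]; simp
  · apply Finset.card_le_card_of_injOn (fun g => g0⁻¹ * g)
    · intro g hg
      simp only [coe_filter, mem_univ, true_and, Set.mem_ofPred_eq, mem_filter] at hg hg0 ⊢
      have h1 : g * t = g0 * t * g0⁻¹ * g := by
        rw [hg0, ← hg]; group
      rw [mul_assoc, h1]; group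
    · intro a _ b _ hab
      exact mul_left_cancel hab

/-- `(number of square roots of c)^2 ≤ number of commuting pairs` -/
lemma card_sqrt_sq_le (c : G) :
    (univ.filter (fun g : G => g * g = c)).card ^ 2 ≤ numComm G := by
  set A := univ.filter (fun g : G => g * g = c) with hA
  have h1 : A.card ^ 2 = (A ×ˢ A).card := by rw [card_product, sq]
  have h2 : (A ×ˢ A).card ≤ ∑ t : G, (univ.filter (fun g : G => g * t * g⁻¹ = t⁻¹)).card := by
    rw [← Finset.card_sigma]
    apply Finset.card_le_card_of_injOn (fun p : G × G => (⟨p.1⁻¹ * p.2, p.1⟩ : Σ _ : G, G))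
    · rintro ⟨g, g'⟩ hg
      simp only [hA, coe_product, coe_filter, mem_univ, true_and, Set.mem_prod,
        Set.mem_ofPred_eq] at hg
      obtain ⟨h1, h2⟩ := hg
      simp only [coe_sigma, coe_univ, coe_filter, mem_univ, true_and, Set.mem_sigma_iff,
        Set.mem_univ, Set.mem_ofPred_eq]
      have h3 : g' = c * g'⁻¹ := by rw [← h2]; group
      have h4 : g⁻¹ = g * c⁻¹ := by rw [← h1]; group
      have h5 : g * c = c * g := by rw [← h1]; group
      calc g * (g⁻¹ * g') * g⁻¹ = g' * g⁻¹ := by group
        _ = g' * (g * c⁻¹) := by rw [← h4]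
        _ = g' * (c⁻¹ * g) := by
            congr 1
            have : c * (g * c⁻¹) = c * (c⁻¹ * g) := by
              rw [← mul_assoc, ← h5]; group
            exact mul_left_cancel this
        _ = (g' * (g' * g')⁻¹) * g := by rw [h2]; group
        _ = (g⁻¹ * g')⁻¹ := by group
    · rintro ⟨a, b⟩ _ ⟨a', b'⟩ _ hab
      simp only [Sigma.mk.injEq, heq_eq_eq] at hab
      obtain ⟨h1, h2⟩ := hab
      subst h2
      simpa using h1
  rw [h1]
  refine h2.trans ?_
  unfold numComm
  exact Finset.sum_le_sum (fun t _ => card_conj_le t t⁻¹)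




/-- `e` is one of the words `g^{±1} (h g)^{±1} h^{±1}` -/
def IsWord (e g h : G) : Prop :=
  ∃ a ∈ ({g, g⁻¹} : Set G), ∃ b ∈ ({h * g, (h * g)⁻¹} : Set G), ∃ c ∈ ({h, h⁻¹} : Set G),
    e = a * b * c

omit [Group G] [DecidableEq G] in
/-- number of pairs satisfying a predicate, as a sum -/
lemma card_pair_eq_sum (P : G → G → Prop) [∀ g h, Decidable (P g h)] :
    (univ.filter (fun p : G × G => P p.1 p.2)).card
      = ∑ g : G, (univ.filter (fun h : G => P g h)).card := by
  rw [← Finset.card_sigma]
  apply Finset.card_bij (fun (p : G × G) _ => (⟨p.1, p.2⟩ : Σ _ : G, G))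
  · rintro ⟨a, b⟩ h
    simpa using h
  · rintro ⟨a, b⟩ _ ⟨a', b'⟩ _ hab
    simp only [Sigma.mk.injEq, heq_eq_eq] at hab
    exact Prod.ext hab.1 hab.2
  · rintro ⟨a, b⟩ h
    exact ⟨(a, b), by simpa using h, rfl⟩

omit [Group G] [DecidableEq G] in
lemma card_pair_le_of_forall (P : G → G → Prop) [∀ g h, Decidable (P g h)] (N : ℕ)
    (hN : ∀ g, (univ.filter (fun h : G => P g h)).card ≤ N) :
    (univ.filter (fun p : G × G => P p.1 p.2)).card ≤ Fintype.card G * N := by
  rw [card_pair_eq_sum]
  calc ∑ g : G, (univ.filter (fun h : G => P g h)).card ≤ ∑ _g : G, N :=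
        Finset.sum_le_sum (fun g _ => hN g)
    _ = Fintype.card G * N := by simp

/-- counting pairs `(g,h)` such that `e ≠ 1` is a word in `(g,h)` -/
lemma card_word_le (e : G) (he : e ≠ 1) (N : ℕ)
    (hN : ∀ c : G, (univ.filter (fun g : G => g * g = c)).card ≤ N)
    (B : Finset (G × G)) (hB : ∀ g h : G, (g, h) ∉ B → IsWord e g h) :
    Fintype.card G ^ 2 ≤ B.card + (5 * (Fintype.card G * N) + 2 * numComm G) := by
  set W1 := univ.filter (fun p : G × G => p.2⁻¹ * p.2⁻¹ = e) with hW1
  set W2 := univ.filter (fun p : G × G => p.1⁻¹ * p.1⁻¹ = e) with hW2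
  set W3 := univ.filter (fun p : G × G => p.1⁻¹ * p.1⁻¹ * p.2⁻¹ * p.2⁻¹ = e) with hW3
  set W4 := univ.filter (fun p : G × G => p.1 * p.2 * p.1 * p.2 = e) with hW4
  set W5 := univ.filter (fun p : G × G => p.1 * p.2 * p.1 * p.2⁻¹ = e) with hW5
  set W6 := univ.filter (fun p : G × G => p.1⁻¹ * p.2 * p.1 * p.2 = e) with hW6
  set W7 := univ.filter (fun p : G × G => p.1⁻¹ * p.2 * p.1 * p.2⁻¹ = e) with hW7
  have hcover : (univ : Finset (G × G)) ⊆ B ∪ (W1 ∪ (W2 ∪ (W3 ∪ (W4 ∪ (W5 ∪ (W6 ∪ W7)))))) := by
    rintro ⟨g, h⟩ _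
    by_cases hgh : (g, h) ∈ B
    · exact Finset.mem_union_left _ hgh
    · apply Finset.mem_union_right
      obtain ⟨a, ha, b, hb, c, hc, habc⟩ := hB g h hgh
      simp only [Finset.mem_union, hW1, hW2, hW3, hW4, hW5, hW6, hW7, mem_filter, mem_univ,
        true_and]
      rcases ha with rfl | ha <;> rcases hb with rfl | hb <;> rcases hc with rfl | hc
      · right; right; right; left; rw [habc]; group
      · simp only [Set.mem_singleton_iff] at hc; subst hc
        right; right; right; right; left; rw [habc]; group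
      · simp only [Set.mem_singleton_iff] at hb; subst hb
        exfalso; apply he; rw [habc]; group
      · simp only [Set.mem_singleton_iff] at hb hc; subst hb; subst hc
        left; rw [habc]; group
      · simp only [Set.mem_singleton_iff] at ha; subst ha
        right; right; right; right; right; left; rw [habc]; group
      · simp only [Set.mem_singleton_iff] at ha hc; subst ha; subst hc
        right; right; right; right; right; right; rw [habc]; group
      · simp only [Set.mem_singleton_iff] at ha hb; subst ha; subst hb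
        right; left; rw [habc]; group
      · simp only [Set.mem_singleton_iff] at ha hb hc; subst ha; subst hb; subst hc
        right; right; left; rw [habc]; group
  have hinv : ∀ c : G, (univ.filter (fun g : G => g⁻¹ * g⁻¹ = c)).card ≤ N := by
    intro c
    refine le_trans (Finset.card_le_card ?_) (hN c⁻¹)
    intro g hg
    simp only [mem_filter, mem_univ, true_and] at hg ⊢
    rw [← hg, mul_inv_rev, inv_inv]
  have h1 : W1.card ≤ Fintype.card G * N := by
    apply card_pair_le_of_forall (fun _ h => h⁻¹ * h⁻¹ = e)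
    intro g; exact hinv e
  have h2 : W2.card ≤ Fintype.card G * N := by
    have : W2.card = W1.card := by
      apply Finset.card_bij (fun (p : G × G) _ => (p.2, p.1))
      · rintro ⟨a, b⟩ h; simpa [hW1, hW2] using h
      · rintro ⟨a, b⟩ _ ⟨a', b'⟩ _ hab
        simp only [Prod.mk.injEq] at hab
        exact Prod.ext hab.2 hab.1
      · rintro ⟨a, b⟩ h
        exact ⟨(b, a), by simpa [hW1, hW2] using h, rfl⟩
    rw [this]; exact h1
  have h3 : W3.card ≤ Fintype.card G * N := by
    apply card_pair_le_of_forall (fun g h => g⁻¹ * g⁻¹ * h⁻¹ * h⁻¹ = e)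
    intro g
    refine le_trans (Finset.card_le_card ?_) (hinv (g * g * e))
    intro h hh
    simp only [mem_filter, mem_univ, true_and] at hh ⊢
    rw [← hh]; group
  have h4 : W4.card ≤ Fintype.card G * N := by
    apply card_pair_le_of_forall (fun g h => g * h * g * h = e)
    intro g
    refine le_trans (Finset.card_le_card_of_injOn (fun h => g * h) ?_ ?_) (hN e)
    · intro h hh
      simp only [coe_filter, mem_univ, true_and, Set.mem_ofPred_eq] at hh ⊢
      rw [← hh]; group
    · intro a _ b _ hab; exact mul_left_cancel hab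
  have h6 : W6.card ≤ Fintype.card G * N := by
    apply card_pair_le_of_forall (fun g h => g⁻¹ * h * g * h = e)
    intro g
    refine le_trans (Finset.card_le_card_of_injOn (fun h => g * h) ?_ ?_) (hN (g * g * e))
    · intro h hh
      simp only [coe_filter, mem_univ, true_and, Set.mem_ofPred_eq] at hh ⊢
      rw [← hh]; group
    · intro a _ b _ hab; exact mul_left_cancel hab
  have h5 : W5.card ≤ numComm G := by
    rw [hW5, card_pair_eq_sum (fun g h => g * h * g * h⁻¹ = e)]
    unfold numComm
    apply Finset.sum_le_sum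
    intro g _
    refine le_trans (Finset.card_le_card ?_) (card_conj_le g (g⁻¹ * e))
    intro h hh
    simp only [mem_filter, mem_univ, true_and] at hh ⊢
    rw [← hh]; group
  have h7 : W7.card ≤ numComm G := by
    rw [hW7, card_pair_eq_sum (fun g h => g⁻¹ * h * g * h⁻¹ = e)]
    unfold numComm
    apply Finset.sum_le_sum
    intro g _
    refine le_trans (Finset.card_le_card ?_) (card_conj_le g (g * e))
    intro h hh
    simp only [mem_filter, mem_univ, true_and] at hh ⊢
    rw [← hh]; group
  have hc := Finset.card_le_card hcover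
  rw [Finset.card_univ, Fintype.card_prod, ← sq] at hc
  have u0 := Finset.card_union_le B (W1 ∪ (W2 ∪ (W3 ∪ (W4 ∪ (W5 ∪ (W6 ∪ W7))))))
  have u1 := Finset.card_union_le W1 (W2 ∪ (W3 ∪ (W4 ∪ (W5 ∪ (W6 ∪ W7)))))
  have u2 := Finset.card_union_le W2 (W3 ∪ (W4 ∪ (W5 ∪ (W6 ∪ W7))))
  have u3 := Finset.card_union_le W3 (W4 ∪ (W5 ∪ (W6 ∪ W7)))
  have u4 := Finset.card_union_le W4 (W5 ∪ (W6 ∪ W7))
  have u5 := Finset.card_union_le W5 (W6 ∪ W7)
  have u6 := Finset.card_union_le W6 W7
  linarith

/-- If `e ≠ 1` is a word in almost all pairs then the commuting probability is at least `1/40`. -/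
lemma numComm_ge (e : G) (he : e ≠ 1)
    (B : Finset (G × G)) (hB : ∀ g h : G, (g, h) ∉ B → IsWord e g h)
    (hBc : 10 * B.card ≤ Fintype.card G ^ 2) :
    Fintype.card G ^ 2 ≤ 40 * numComm G := by
  by_contra hcon
  push Not at hcon
  set n := Fintype.card G with hn
  set K := numComm G with hK
  have hnpos : 0 < n := Fintype.card_pos
  have hN : ∀ c : G, (univ.filter (fun g : G => g * g = c)).card ≤ Nat.sqrt K := by
    intro c
    rw [Nat.le_sqrt']
    exact card_sqrt_sq_le c
  have h1 := card_word_le e he (Nat.sqrt K) hN B hB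
  have h2 : Nat.sqrt K ^ 2 ≤ K := Nat.sqrt_le' K
  set s := Nat.sqrt K with hs
  have h3 : 6 * s < n := by
    by_contra h
    push Not at h
    have : n ^ 2 ≤ 36 * s ^ 2 := by
      calc n ^ 2 ≤ (6 * s) ^ 2 := Nat.pow_le_pow_left h 2
        _ = 36 * s ^ 2 := by ring
    nlinarith
  nlinarith

end basic

end Pool.Agent.StabCay
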