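import Pool.Agent.StabCay.Classes

/-!
Finding a small tuple witnessing many failures, and the resulting union bound.
-/

namespace Pool.Agent.StabCay

open Finset

universe u

variable {G : Type u} [Group G] [Fintype G] [DecidableEq G]

lemma exists_tuple (b L : ℕ) (hb : 0 < b) (F : Finset (G × G))
    (hF : Fintype.card G ^ 2 ≤ L * F.card) (h1 : 8 * L * b ^ 4 ≤ Fintype.card G) :
    ∃ z : (Fin b → G) × (Fin b → G),
      (∀ p p' : Fin b × Fin b,
        cl (z.2 p.2 * (z.1 p.1)⁻¹) = cl (z.2 p'.2 * (z.1 p'.1)⁻¹) → p = p') ∧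
      b ^ 2 ≤ 2 * L * (univ.filter (fun p : Fin b × Fin b => (z.1 p.1, z.2 p.2) ∈ F)).card := by
  classical
  by_contra hcon
  push Not at hcon
  set n := Fintype.card G with hn
  have hnpos : 0 < n := Fintype.card_pos
  set N := Fintype.card ((Fin b → G) × (Fin b → G)) with hN
  have hNpos : 0 < N := Fintype.card_pos
  set cnt : (Fin b → G) × (Fin b → G) → ℕ :=
    fun z => (univ.filter (fun p : Fin b × Fin b => (z.1 p.1, z.2 p.2) ∈ F)).card with hcnt
  set E : (Fin b × Fin b) × (Fin b × Fin b) → Finset ((Fin b → G) × (Fin b → G)) :=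
    fun q => univ.filter (fun z => q.1 ≠ q.2 ∧
      cl (z.2 q.1.2 * (z.1 q.1.1)⁻¹) = cl (z.2 q.2.2 * (z.1 q.2.1)⁻¹)) with hE
  have hcle : ∀ z, cnt z ≤ b ^ 2 := by
    intro z
    calc cnt z ≤ Fintype.card (Fin b × Fin b) := Finset.card_le_univ _
      _ = b ^ 2 := by rw [Fintype.card_prod, Fintype.card_fin, sq]
  have hpt : ∀ z, 2 * L * cnt z ≤ b ^ 2 +
      ∑ q : (Fin b × Fin b) × (Fin b × Fin b), (if z ∈ E q then 2 * L * b ^ 2 else 0) := by
    intro z
    by_cases hz : ∀ p p' : Fin b × Fin b,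
        cl (z.2 p.2 * (z.1 p.1)⁻¹) = cl (z.2 p'.2 * (z.1 p'.1)⁻¹) → p = p'
    · have := hcon z hz
      exact (this.le).trans (Nat.le_add_right _ _)
    · push Not at hz
      obtain ⟨p, p', hpp, hne⟩ := hz
      have h2 : (if z ∈ E (p, p') then 2 * L * b ^ 2 else 0) ≤
          ∑ q : (Fin b × Fin b) × (Fin b × Fin b), (if z ∈ E q then 2 * L * b ^ 2 else 0) :=
        Finset.single_le_sum (f := fun q => if z ∈ E q then 2 * L * b ^ 2 else 0)
          (fun _ _ => Nat.zero_le _) (Finset.mem_univ (p, p'))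
      have h3 : z ∈ E (p, p') := by
        simp only [hE, mem_filter, mem_univ, true_and]
        exact ⟨hne, hpp⟩
      rw [if_pos h3] at h2
      calc 2 * L * cnt z ≤ 2 * L * b ^ 2 := Nat.mul_le_mul_left _ (hcle z)
        _ ≤ _ := h2
        _ ≤ _ := Nat.le_add_left _ _
  have hsum : ∑ z, 2 * L * cnt z ≤ N * b ^ 2 +
      ∑ q : (Fin b × Fin b) × (Fin b × Fin b), (E q).card * (2 * L * b ^ 2) := by
    calc ∑ z, 2 * L * cnt z ≤ ∑ z : (Fin b → G) × (Fin b → G), (b ^ 2 +
          ∑ q : (Fin b × Fin b) × (Fin b × Fin b), (if z ∈ E q then 2 * L * b ^ 2 else 0)) :=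
          Finset.sum_le_sum (fun z _ => hpt z)
      _ = N * b ^ 2 +
        ∑ q : (Fin b × Fin b) × (Fin b × Fin b), (E q).card * (2 * L * b ^ 2) := by
          rw [Finset.sum_add_distrib, Finset.sum_comm]
          congr 1
          · simp [hN]
          · refine Finset.sum_congr rfl (fun q _ => ?_)
            rw [← Finset.sum_filter]
            simp
  have hEq : ∀ q, n * (E q).card ≤ N * 2 := by
    rintro ⟨p, p'⟩
    by_cases hpp : p = p'
    · have : E (p, p') = ∅ := by
        simp [hE, hpp]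
      rw [this]; simp
    · have := card_coinc_le (G := G) p.1 p.2 p'.1 p'.2 hpp
      refine le_trans ?_ this
      gcongr
      intro z hz
      exact Finset.mem_filter.mpr ⟨Finset.mem_univ _, (Finset.mem_filter.mp hz).2.2⟩
  have hswap : ∑ z, cnt z = ∑ p : Fin b × Fin b,
      (univ.filter (fun z : (Fin b → G) × (Fin b → G) => (z.1 p.1, z.2 p.2) ∈ F)).card := by
    simp only [hcnt, Finset.card_filter]
    rw [Finset.sum_comm]
  have hlow : b ^ 2 * (N * F.card) ≤ n ^ 2 * ∑ z, cnt z := by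
    rw [hswap, Finset.mul_sum]
    calc b ^ 2 * (N * F.card) = ∑ _p : Fin b × Fin b, N * F.card := by
          rw [Finset.sum_const, Finset.card_univ, Fintype.card_prod, Fintype.card_fin, sq]; rfl
      _ ≤ _ := by
          refine Finset.sum_le_sum (fun p _ => ?_)
          have := card_hit_ge F p.1 p.2
          rw [Fintype.card_prod G G, ← hn, ← sq] at this
          exact this
  have hup : n * ∑ q : (Fin b × Fin b) × (Fin b × Fin b), (E q).card * (2 * L * b ^ 2)
      ≤ b ^ 4 * (N * 2 * (2 * L * b ^ 2)) := by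
    rw [Finset.mul_sum]
    calc _ ≤ ∑ _q : (Fin b × Fin b) × (Fin b × Fin b), (N * 2 * (2 * L * b ^ 2)) := by
          refine Finset.sum_le_sum (fun q _ => ?_)
          rw [← mul_assoc]
          exact Nat.mul_le_mul_right _ (hEq q)
      _ = _ := by
          rw [Finset.sum_const, Finset.card_univ, Fintype.card_prod, Fintype.card_prod,
            Fintype.card_fin, smul_eq_mul]
          ring
  rw [← Finset.mul_sum] at hsum
  -- combine
  have e1 : 2 * (b ^ 2 * (N * n ^ 2)) ≤ n ^ 2 * (2 * L * ∑ z, cnt z) := by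
    calc 2 * (b ^ 2 * (N * n ^ 2)) ≤ 2 * (b ^ 2 * (N * (L * F.card))) := by gcongr
      _ = 2 * L * (b ^ 2 * (N * F.card)) := by ring
      _ ≤ 2 * L * (n ^ 2 * ∑ z, cnt z) := by gcongr
      _ = _ := by ring
  have e2 : n ^ 2 * (2 * L * ∑ z, cnt z) ≤ n ^ 2 * (N * b ^ 2) +
      n * (b ^ 4 * (N * 2 * (2 * L * b ^ 2))) := by
    calc n ^ 2 * (2 * L * ∑ z, cnt z) ≤ n ^ 2 * (N * b ^ 2 +
        ∑ q : (Fin b × Fin b) × (Fin b × Fin b), (E q).card * (2 * L * b ^ 2)) := by gcongr
      _ = n ^ 2 * (N * b ^ 2) + n * (n *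
        ∑ q : (Fin b × Fin b) × (Fin b × Fin b), (E q).card * (2 * L * b ^ 2)) := by ring
      _ ≤ _ := by gcongr
  have e3 : 2 * (n * (b ^ 4 * (N * 2 * (2 * L * b ^ 2)))) ≤ n ^ 2 * (N * b ^ 2) := by
    calc 2 * (n * (b ^ 4 * (N * 2 * (2 * L * b ^ 2)))) = (8 * L * b ^ 4) * (n * (N * b ^ 2)) := by
          ring
      _ ≤ n * (n * (N * b ^ 2)) := by gcongr
      _ = _ := by ring
  have e4 : 0 < n ^ 2 * (N * b ^ 2) := by positivity
  have e5 : 2 * (b ^ 2 * (N * n ^ 2)) = 2 * (n ^ 2 * (N * b ^ 2)) := by ring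
  omega

/-- `f` is preserved by the pair of maps `A` (on the `false` side) and `B` (on the `true` side) -/
def Pres (f : Cl G → Bool) (A B : G → G × Bool) : Prop :=
  ∀ x y, f (cl (y * x⁻¹)) =
    (xor (A x).2 (B y).2 && f (cl ((B y).1 * ((A x).1)⁻¹)))

/-- the pair `(x,y)` is badly treated by `A, B` -/
def FailAt (X Y : G × Bool) (x y : G) : Prop :=
  ¬ (xor X.2 Y.2 = true ∧ cl (Y.1 * X.1⁻¹) = cl (y * x⁻¹))

open Classical in
/-- the set of pairs which are badly treated -/
noncomputable def failSet (A B : G → G × Bool) : Finset (G × G) :=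
  univ.filter (fun p => FailAt (A p.1) (B p.2) p.1 p.2)

open Classical in
lemma card_bad_le (b L K : ℕ) (hb : 0 < b) (hL : 0 < L) (hK : 4 * L * K ≤ b ^ 2)
    (h1 : 8 * L * b ^ 4 ≤ Fintype.card G) :
    (univ.filter (fun f : Cl G → Bool => ∃ A B : G → G × Bool, Pres f A B ∧
      Fintype.card G ^ 2 ≤ L * (failSet A B).card)).card * 2 ^ K
      ≤ Fintype.card G ^ (2 * b) * (2 * Fintype.card G) ^ (2 * b) * 2 ^ Fintype.card (Cl G) := by
  set Q := ((Fin b → G) × (Fin b → G)) × ((Fin b → G × Bool) × (Fin b → G × Bool)) with hQ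
  set S : Q → Finset (Cl G → Bool) := fun q => univ.filter (fun f =>
    (∀ p p' : Fin b × Fin b,
        cl (q.1.2 p.2 * (q.1.1 p.1)⁻¹) = cl (q.1.2 p'.2 * (q.1.1 p'.1)⁻¹) → p = p') ∧
      b ^ 2 ≤ 2 * L * (univ.filter (fun p : Fin b × Fin b =>
        FailAt (q.2.1 p.1) (q.2.2 p.2) (q.1.1 p.1) (q.1.2 p.2))).card ∧
    ∀ i j, f (cl (q.1.2 j * (q.1.1 i)⁻¹)) =
      (xor (q.2.1 i).2 (q.2.2 j).2 && f (cl ((q.2.2 j).1 * ((q.2.1 i).1)⁻¹)))) with hS
  have hsub : (univ.filter (fun f : Cl G → Bool => ∃ A B : G → G × Bool, Pres f A B ∧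
      Fintype.card G ^ 2 ≤ L * (failSet A B).card)) ⊆ (univ : Finset Q).biUnion S := by
    intro f hf
    obtain ⟨A, B, hP, hF⟩ := (Finset.mem_filter.mp hf).2
    obtain ⟨z, hz1, hz2⟩ := exists_tuple b L hb (failSet A B) hF h1
    simp only [mem_biUnion, mem_univ, true_and]
    refine ⟨(z, (fun i => A (z.1 i), fun j => B (z.2 j))), ?_⟩
    simp only [hS, mem_filter, mem_univ, true_and]
    refine ⟨hz1, ?_, fun i j => hP (z.1 i) (z.2 j)⟩
    simp only [failSet, mem_filter, mem_univ, true_and] at hz2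
    exact hz2
  have hSq : ∀ q, (S q).card * 2 ^ K ≤ 2 ^ Fintype.card (Cl G) := by
    intro q
    by_cases hq : (∀ p p' : Fin b × Fin b,
        cl (q.1.2 p.2 * (q.1.1 p.1)⁻¹) = cl (q.1.2 p'.2 * (q.1.1 p'.1)⁻¹) → p = p') ∧
      b ^ 2 ≤ 2 * L * (univ.filter (fun p : Fin b × Fin b =>
        FailAt (q.2.1 p.1) (q.2.2 p.2) (q.1.1 p.1) (q.1.2 p.2))).card
    · set J := {p : Fin b × Fin b //
        FailAt (q.2.1 p.1) (q.2.2 p.2) (q.1.1 p.1) (q.1.2 p.2)} with hJ
      set pm : J → Cl G := fun j => cl (q.1.2 j.1.2 * (q.1.1 j.1.1)⁻¹) with hpm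
      set qm : J → Option (Cl G) := fun j =>
        if xor (q.2.1 j.1.1).2 (q.2.2 j.1.2).2 = true then
          some (cl ((q.2.2 j.1.2).1 * ((q.2.1 j.1.1).1)⁻¹)) else none with hqm
      have hcJ : 2 * K ≤ Fintype.card J + 1 := by
        have h2 : Fintype.card J = (univ.filter (fun p : Fin b × Fin b =>
            FailAt (q.2.1 p.1) (q.2.2 p.2) (q.1.1 p.1) (q.1.2 p.2))).card :=
          Fintype.card_subtype _
        have h3 := hK.trans hq.2
        rw [← h2] at h3
        have h4 : 2 * L * (2 * K) ≤ 2 * L * Fintype.card J := by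
          calc 2 * L * (2 * K) = 4 * L * K := by ring
            _ ≤ _ := h3
        have h5 := Nat.le_of_mul_le_mul_left h4 (by positivity)
        omega
      have hsol := card_solutions_le pm (by
        intro j j' hjj
        exact Subtype.ext (hq.1 j.1 j'.1 hjj)) qm (by
        intro j hj
        simp only [hqm] at hj
        split_ifs at hj with hx
        · exact j.2 ⟨hx, Option.some_injective _ hj⟩) K hcJ
      refine le_trans (Nat.mul_le_mul_right _ (Finset.card_le_card ?_)) hsol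
      intro f hf
      simp only [hS, mem_filter, mem_univ, true_and] at hf ⊢
      intro j
      have := hf.2.2 j.1.1 j.1.2
      simp only [hpm, hqm]
      rw [this]
      split_ifs with hx
      · rw [hx]; simp
      · simp only [Bool.not_eq_true] at hx
        rw [hx]; simp
    · have : S q = ∅ := by
        apply Finset.filter_eq_empty_iff.mpr
        rintro f _ ⟨ha, hb, _⟩
        exact hq ⟨ha, hb⟩
      rw [this]; simp
  have hcQ : Fintype.card Q = Fintype.card G ^ (2 * b) * (2 * Fintype.card G) ^ (2 * b) := by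
    simp only [Q, Fintype.card_prod, Fintype.card_fun, Fintype.card_fin, Fintype.card_bool]
    ring
  calc _ ≤ (∑ q : Q, (S q).card) * 2 ^ K :=
        Nat.mul_le_mul_right _ ((Finset.card_le_card hsub).trans Finset.card_biUnion_le)
    _ = ∑ q : Q, (S q).card * 2 ^ K := by rw [Finset.sum_mul]
    _ ≤ ∑ _q : Q, 2 ^ Fintype.card (Cl G) := Finset.sum_le_sum (fun q _ => hSq q)
    _ = _ := by rw [Finset.sum_const, smul_eq_mul, Finset.card_univ, hcQ]

end Pool.Agent.StabCay
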