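import Pool.Agent.StabCay.Count

/-!
Inverse-pairs of elements of a group, and averaging over tuples.
-/

namespace Pool.Agent.StabCay

open Finset

universe u

/-- `g ~ h` iff `g = h` or `g = h⁻¹` -/
def invSetoid (G : Type u) [Group G] : Setoid G where
  r g h := g = h ∨ g = h⁻¹
  iseqv := {
    refl := fun g => Or.inl rfl
    symm := by
      rintro g h (rfl | rfl)
      · exact Or.inl rfl
      · right; rw [inv_inv]
    trans := by
      rintro g h k (rfl | rfl) (rfl | rfl)
      · exact Or.inl rfl
      · exact Or.inr rfl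
      · exact Or.inr rfl
      · left; rw [inv_inv] }

/-- the type of classes `{g, g⁻¹}` -/
def Cl (G : Type u) [Group G] : Type u := Quotient (invSetoid G)

/-- the class of an element -/
def cl {G : Type u} [Group G] (g : G) : Cl G := Quotient.mk (invSetoid G) g

variable {G : Type u} [Group G]

lemma cl_eq_iff {g h : G} : cl g = cl h ↔ g = h ∨ g = h⁻¹ := by
  exact Quotient.eq (r := invSetoid G)

lemma cl_inv (g : G) : cl g⁻¹ = cl g := cl_eq_iff.mpr (Or.inr rfl)

lemma cl_surjective : Function.Surjective (cl : G → Cl G) := by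
  intro c
  obtain ⟨g, hg⟩ := Quotient.exists_rep c
  exact ⟨g, hg⟩

instance [Finite G] : Finite (Cl G) := Finite.of_surjective _ (cl_surjective (G := G))

noncomputable instance [Fintype G] : Fintype (Cl G) := Fintype.ofFinite _

noncomputable instance : DecidableEq (Cl G) := Classical.decEq _

lemma card_le_two_mul_card_Cl [Fintype G] : Fintype.card G ≤ 2 * Fintype.card (Cl G) := by
  classical
  have h := Finset.card_le_mul_card_image (f := (cl : G → Cl G)) (s := (univ : Finset G)) 2 ?_
  · refine h.trans ?_
    gcongr
    exact Finset.card_le_univ _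
  · intro c _
    obtain ⟨g, rfl⟩ := cl_surjective c
    calc (univ.filter (fun x : G => cl x = cl g)).card ≤ ({g, g⁻¹} : Finset G).card := by
          apply Finset.card_le_card
          intro x hx
          simp only [mem_filter, mem_univ, true_and] at hx
          rcases cl_eq_iff.mp hx with h | h
          · simp [h]
          · simp [h]
      _ ≤ 2 := Finset.card_le_two

section averaging

/-- translation averaging -/
lemma sum_card_translate {H T : Type*} [Group H] [Fintype H] [DecidableEq H] [Fintype T]
    (E : Finset H) (θ : T → H) :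
    ∑ z : H, (univ.filter (fun s : T => z * θ s ∈ E)).card = Fintype.card T * E.card := by
  simp_rw [Finset.card_filter]
  rw [Finset.sum_comm]
  have : ∀ s : T, ∑ z : H, (if z * θ s ∈ E then 1 else 0) = E.card := by
    intro s
    exact (Equiv.sum_comp (Equiv.mulRight (θ s)) (fun z => if z ∈ E then 1 else 0)).trans
      (by simp)
  rw [Finset.sum_congr rfl (fun s _ => this s)]
  simp

lemma translate_le {H T : Type*} [Group H] [Fintype H] [DecidableEq H] [Fintype T]
    (E : Finset H) (θ : T → H) (k : ℕ)
    (h : ∀ z, (univ.filter (fun s : T => z * θ s ∈ E)).card ≤ k) :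
    Fintype.card T * E.card ≤ Fintype.card H * k := by
  rw [← sum_card_translate E θ]
  calc _ ≤ ∑ _z : H, k := Finset.sum_le_sum (fun z _ => h z)
    _ = Fintype.card H * k := by simp

lemma translate_ge {H T : Type*} [Group H] [Fintype H] [DecidableEq H] [Fintype T]
    (E : Finset H) (θ : T → H) (k : ℕ)
    (h : ∀ z, k ≤ (univ.filter (fun s : T => z * θ s ∈ E)).card) :
    Fintype.card H * k ≤ Fintype.card T * E.card := by
  rw [← sum_card_translate E θ]
  calc Fintype.card H * k = ∑ _z : H, k := by simp
    _ ≤ _ := Finset.sum_le_sum (fun z _ => h z)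

variable [Fintype G] [DecidableEq G] {b : ℕ}

/-- (M1) -/
lemma card_hit_ge (F : Finset (G × G)) (i j : Fin b) :
    Fintype.card ((Fin b → G) × (Fin b → G)) * F.card
      ≤ Fintype.card (G × G) *
        (univ.filter (fun z : (Fin b → G) × (Fin b → G) => (z.1 i, z.2 j) ∈ F)).card := by
  apply translate_ge _ (fun s : G × G => (Pi.mulSingle i s.1, Pi.mulSingle j s.2))
  intro z
  apply Finset.card_le_card_of_injOn (fun p => ((z.1 i)⁻¹ * p.1, (z.2 j)⁻¹ * p.2))
  · intro p hp
    simp only [coe_filter, mem_univ, true_and, mem_filter, Prod.fst_mul, Pi.mul_apply,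
      Pi.mulSingle_eq_same, Prod.snd_mul, Set.mem_ofPred_eq, mul_inv_cancel_left]
    exact hp
  · rintro ⟨a, b⟩ _ ⟨c, d⟩ _ h
    simp only [Prod.mk.injEq, mul_right_inj] at h
    rw [h.1, h.2]

/-- (M2) -/
lemma card_coinc_le (i j i' j' : Fin b) (hne : (i, j) ≠ (i', j')) :
    Fintype.card G *
        (univ.filter (fun z : (Fin b → G) × (Fin b → G) =>
          cl (z.2 j * (z.1 i)⁻¹) = cl (z.2 j' * (z.1 i')⁻¹))).card
      ≤ Fintype.card ((Fin b → G) × (Fin b → G)) * 2 := by
  by_cases hi : i = i'
  · have hj : j ≠ j' := by
      rintro rfl; exact hne (by rw [hi])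
    subst hi
    apply translate_le _ (fun s : G => ((1 : Fin b → G), Pi.mulSingle j s))
    intro z
    calc _ ≤ ({(z.2 j)⁻¹ * z.2 j', (z.2 j)⁻¹ * (z.1 i * (z.2 j')⁻¹ * z.1 i)} : Finset G).card := by
          apply Finset.card_le_card
          intro s hs
          simp only [mem_filter, mem_univ, true_and, Prod.snd_mul, Pi.mul_apply,
            Pi.mulSingle_eq_same, Prod.fst_mul, Pi.one_apply, mul_one,
            Pi.mulSingle_eq_of_ne hj.symm] at hs
          simp only [mem_insert, mem_singleton]
          rcases cl_eq_iff.mp hs with h | h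
          · left
            have := mul_right_cancel h
            rw [← this]; group
          · right
            have h2 : z.2 j * s = z.1 i * (z.2 j')⁻¹ * z.1 i := by
              rw [mul_inv_eq_iff_eq_mul] at h
              rw [h]; group
            rw [← h2]; group
      _ ≤ 2 := Finset.card_le_two
  · apply translate_le _ (fun s : G => (Pi.mulSingle i s, (1 : Fin b → G)))
    intro z
    calc _ ≤ ({(z.1 i)⁻¹ * (z.1 i' * (z.2 j')⁻¹ * z.2 j),
            (z.1 i)⁻¹ * (z.2 j' * (z.1 i')⁻¹ * z.2 j)} : Finset G).card := by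
          apply Finset.card_le_card
          intro s hs
          simp only [mem_filter, mem_univ, true_and, Prod.snd_mul, Pi.mul_apply,
            Pi.mulSingle_eq_same, Prod.fst_mul, Pi.one_apply, mul_one,
            Pi.mulSingle_eq_of_ne (Ne.symm hi)] at hs
          simp only [mem_insert, mem_singleton]
          rcases cl_eq_iff.mp hs with h | h
          · left
            have h2 : z.1 i * s = z.1 i' * (z.2 j')⁻¹ * z.2 j := by
              have h3 : (z.2 j * (z.1 i * s)⁻¹)⁻¹ = (z.2 j' * (z.1 i')⁻¹)⁻¹ := by rw [h]
              rw [mul_inv_rev, inv_inv, mul_inv_rev, inv_inv, mul_inv_eq_iff_eq_mul] at h3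
              exact h3
            rw [← h2]; group
          · right
            have h2 : z.1 i * s = z.2 j' * (z.1 i')⁻¹ * z.2 j := by
              have h3 : (z.2 j * (z.1 i * s)⁻¹)⁻¹ = z.2 j' * (z.1 i')⁻¹ := by rw [h, inv_inv]
              rw [mul_inv_rev, inv_inv, mul_inv_eq_iff_eq_mul] at h3
              exact h3
            rw [← h2]; group
      _ ≤ 2 := Finset.card_le_two

end averaging

end Pool.Agent.StabCay
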