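import Mathlib

/-!
Commuting pairs and commuting tuples in finite groups.
-/

namespace Pool.Agent.StabCay

open Subgroup

universe u

section

variable {G : Type u} [Group G] [Finite G]

/-- number of commuting pairs -/
noncomputable def cK (H : Type u) [Group H] : ℕ := Nat.card {p : H × H // p.2 * p.1 = p.1 * p.2}

/-- number of pairwise commuting `m`-tuples -/
noncomputable def cT (m : ℕ) (H : Type u) [Group H] : ℕ :=
  Nat.card {v : Fin m → H // ∀ i j, v i * v j = v j * v i}

lemma natcard_pair {α β : Type*} [Fintype α] [Finite β] (R : α → β → Prop) :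
    Nat.card {p : α × β // R p.1 p.2} = ∑ a : α, Nat.card {b : β // R a b} := by
  rw [Nat.card_congr (Equiv.subtypeProdEquivSigmaSubtype R), Nat.card_sigma]

lemma natcard_pair' {α β : Type*} [Finite α] [Fintype β] (R : α → β → Prop) :
    Nat.card {p : α × β // R p.1 p.2} = ∑ b : β, Nat.card {a : α // R a b} := by
  rw [← natcard_pair (fun b a => R a b)]
  exact Nat.card_congr ((Equiv.prodComm α β).subtypeEquiv (fun p => Iff.rfl))

lemma card_mul_card_le (A B : Subgroup G) :
    Nat.card A * Nat.card B ≤ Nat.card (A ⊓ B : Subgroup G) * Nat.card G := by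
  have h1 : Nat.card (A ⊓ B : Subgroup G) * A.relIndex B = Nat.card B := by
    have := (A.subgroupOf B).card_mul_index
    rw [← this]
    congr 1
    rw [← inf_subgroupOf_right]
    exact (Nat.card_congr (Subgroup.subgroupOfEquivOfLe (inf_le_right : A ⊓ B ≤ B)).toEquiv).symm
  have h2 : A.relIndex B ≤ A.index := by
    rw [← A.relIndex_top_right]
    apply relIndex_le_of_le_right le_top
    rw [A.relIndex_top_right]
    exact A.index_ne_zero_of_finite
  calc Nat.card A * Nat.card B = Nat.card (A ⊓ B : Subgroup G) * (Nat.card A * A.relIndex B) := by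
        rw [← h1]; ring
    _ ≤ Nat.card (A ⊓ B : Subgroup G) * (Nat.card A * A.index) := by gcongr
    _ = Nat.card (A ⊓ B : Subgroup G) * Nat.card G := by rw [A.card_mul_index]

omit [Finite G] in
lemma natcard_cent (g : G) :
    Nat.card {h : G // h * g = g * h} = Nat.card (centralizer ({g} : Set G)) := by
  apply Nat.card_congr
  apply Equiv.subtypeEquivRight
  intro h
  rw [mem_centralizer_singleton_iff]

omit [Finite G] in
lemma natcard_cent_inf (H : Subgroup G) (g : G) :
    Nat.card {h : H // (h : G) * g = g * h} = Nat.card (centralizer ({g} : Set G) ⊓ H : Subgroup G) := by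
  apply Nat.card_congr
  refine ⟨fun h => ⟨h.1.1, ?_, h.1.2⟩, fun h => ⟨⟨h.1, h.2.2⟩, ?_⟩, fun h => rfl, fun h => rfl⟩
  · exact mem_centralizer_singleton_iff.mpr h.2
  · exact mem_centralizer_singleton_iff.mp h.2.1

/-- Gustafson: commuting probability does not decrease when passing to subgroups. -/
lemma cK_subgroup (H : Subgroup G) :
    cK G * Nat.card H ^ 2 ≤ cK H * Nat.card G ^ 2 := by
  classical
  have : Fintype G := Fintype.ofFinite G
  have : Fintype H := Fintype.ofFinite H
  -- S2 : number of commuting pairs in `G × H`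
  set S2 := Nat.card {p : G × H // (p.2 : G) * p.1 = p.1 * p.2} with hS2
  have h1 : cK G = ∑ g : G, Nat.card (centralizer ({g} : Set G)) := by
    unfold cK
    rw [natcard_pair (fun g h : G => h * g = g * h)]
    exact Finset.sum_congr rfl (fun g _ => natcard_cent g)
  have h2 : S2 = ∑ g : G, Nat.card (centralizer ({g} : Set G) ⊓ H : Subgroup G) := by
    rw [hS2, natcard_pair (fun (g : G) (h : H) => (h : G) * g = g * h)]
    exact Finset.sum_congr rfl (fun g _ => natcard_cent_inf H g)
  have h2' : S2 = ∑ a : H, Nat.card (centralizer ({(a : G)} : Set G)) := by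
    rw [hS2, natcard_pair' (fun (g : G) (h : H) => (h : G) * g = g * h)]
    refine Finset.sum_congr rfl (fun a _ => ?_)
    rw [← natcard_cent]
    apply Nat.card_congr
    exact Equiv.subtypeEquivRight (fun g => eq_comm)
  have h3 : cK H = ∑ a : H, Nat.card (centralizer ({(a : G)} : Set G) ⊓ H : Subgroup G) := by
    unfold cK
    rw [natcard_pair (fun g h : H => h * g = g * h)]
    refine Finset.sum_congr rfl (fun a _ => ?_)
    rw [← natcard_cent_inf]
    apply Nat.card_congr
    apply Equiv.subtypeEquivRight
    intro h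
    rw [← Subtype.coe_inj]; rfl
  have e1 : cK G * Nat.card H ≤ S2 * Nat.card G := by
    rw [h1, h2, Finset.sum_mul, Finset.sum_mul]
    exact Finset.sum_le_sum (fun g _ => card_mul_card_le _ _)
  have e2 : S2 * Nat.card H ≤ cK H * Nat.card G := by
    rw [h2', h3, Finset.sum_mul, Finset.sum_mul]
    exact Finset.sum_le_sum (fun g _ => card_mul_card_le _ _)
  calc cK G * Nat.card H ^ 2 = (cK G * Nat.card H) * Nat.card H := by ring
    _ ≤ (S2 * Nat.card G) * Nat.card H := Nat.mul_le_mul_right _ e1
    _ = (S2 * Nat.card H) * Nat.card G := by ring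
    _ ≤ (cK H * Nat.card G) * Nat.card G := Nat.mul_le_mul_right _ e2
    _ = cK H * Nat.card G ^ 2 := by ring

/-- recursion for commuting tuples -/
lemma cT_succ [Fintype G] (m : ℕ) :
    ∑ g : G, cT m (centralizer ({g} : Set G)) ≤ cT (m + 1) G := by
  classical
  unfold cT
  rw [← Nat.card_sigma]
  apply Nat.card_le_card_of_injective
    (fun (x : Σ g : G, {v : Fin m → centralizer ({g} : Set G) // ∀ i j, v i * v j = v j * v i}) =>
      (⟨Fin.cons x.1 (fun i => ((x.2.1 i : centralizer ({x.1} : Set G)) : G)), by
        intro i j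
        refine Fin.cases ?_ (fun i => ?_) i
        · refine Fin.cases ?_ (fun j => ?_) j
          · rfl
          · simp only [Fin.cons_zero, Fin.cons_succ]
            exact (mem_centralizer_singleton_iff.mp (x.2.1 j).2).symm
        · refine Fin.cases ?_ (fun j => ?_) j
          · simp only [Fin.cons_zero, Fin.cons_succ]
            exact (mem_centralizer_singleton_iff.mp (x.2.1 i).2)
          · simp only [Fin.cons_succ]
            exact congrArg Subtype.val (x.2.2 i j)⟩ :
        {v : Fin (m+1) → G // ∀ i j, v i * v j = v j * v i}))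
  rintro ⟨g, v, hv⟩ ⟨g', v', hv'⟩ hgg
  simp only [Subtype.mk.injEq] at hgg
  have h0 : g = g' := by
    have := congrFun hgg 0
    simpa using this
  subst h0
  congr 1
  apply Subtype.ext
  funext i
  apply Subtype.ext
  have := congrFun hgg i.succ
  simpa using this

end

/-- lower bound for the number of commuting `m`-tuples -/
lemma cT_ge (m : ℕ) : ∀ (H : Type u) [Group H] [Finite H], Nat.card H ^ 2 ≤ 40 * cK H →
    Nat.card H ^ m ≤ 80 ^ (m * (m + 1)) * cT m H := by
  classical
  induction m with
  | zero =>
    intro H _ _ _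
    simp only [pow_zero, Nat.zero_mul, one_mul]
    unfold cT
    have : Nonempty {v : Fin 0 → H // ∀ i j, v i * v j = v j * v i} :=
      ⟨⟨fun i => i.elim0, fun i => i.elim0⟩⟩
    exact Nat.card_pos
  | succ m ih =>
    intro H _ _ hH
    have : Fintype H := Fintype.ofFinite H
    set n := Nat.card H with hn
    set Z := Finset.univ.filter (fun g : H => n ≤ 80 * Nat.card (centralizer ({g} : Set H))) with hZ
    have h1 : cK H = ∑ g : H, Nat.card (centralizer ({g} : Set H)) := by
      unfold cK
      rw [natcard_pair (fun g h : H => h * g = g * h)]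
      exact Finset.sum_congr rfl (fun g _ => natcard_cent g)
    have hnpos : 0 < n := Nat.card_pos
    have hZc : n ≤ 80 * Z.card := by
      have hsplit : ∑ g : H, Nat.card (centralizer ({g} : Set H))
          = ∑ g ∈ Z, Nat.card (centralizer ({g} : Set H))
            + ∑ g ∈ Finset.univ.filter (fun g : H => ¬ n ≤ 80 * Nat.card (centralizer ({g} : Set H))),
              Nat.card (centralizer ({g} : Set H)) := by
        rw [hZ, Finset.sum_filter_add_sum_filter_not]
      have b1 : ∑ g ∈ Z, Nat.card (centralizer ({g} : Set H)) ≤ Z.card * n := by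
        rw [← smul_eq_mul]
        apply Finset.sum_le_card_nsmul
        intro g _
        exact Subgroup.card_le_card_group _
      set Zc := Finset.univ.filter
        (fun g : H => ¬ n ≤ 80 * Nat.card (centralizer ({g} : Set H))) with hZc
      have b2 : 80 * ∑ g ∈ Zc, Nat.card (centralizer ({g} : Set H)) ≤ n * n := by
        rw [Finset.mul_sum]
        calc ∑ g ∈ Zc, 80 * Nat.card (centralizer ({g} : Set H)) ≤ ∑ g ∈ Zc, n := by
              apply Finset.sum_le_sum
              intro g hg
              have := (Finset.mem_filter.mp hg).2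
              omega
          _ ≤ n * n := by
              rw [Finset.sum_const, smul_eq_mul]
              apply Nat.mul_le_mul_right
              calc Zc.card ≤ (Finset.univ : Finset H).card := Finset.card_le_univ _
                _ = n := by rw [Finset.card_univ, hn, Nat.card_eq_fintype_card]
      rw [h1, hsplit] at hH
      by_contra hcon
      push Not at hcon
      nlinarith
    have h2 : ∀ g ∈ Z, n ^ m ≤ 80 ^ m * 80 ^ (m * (m + 1)) * cT m (centralizer ({g} : Set H)) := by
      intro g hg
      have hg' := (Finset.mem_filter.mp hg).2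
      have hsub := cK_subgroup (centralizer ({g} : Set H))
      have h3 : Nat.card (centralizer ({g} : Set H)) ^ 2 ≤ 40 * cK (centralizer ({g} : Set H)) := by
        have hn2 : 0 < Nat.card H ^ 2 := by positivity
        apply Nat.le_of_mul_le_mul_right _ hn2
        calc Nat.card (centralizer ({g} : Set H)) ^ 2 * Nat.card H ^ 2
            ≤ Nat.card (centralizer ({g} : Set H)) ^ 2 * (40 * cK H) := by gcongr
          _ = 40 * (cK H * Nat.card (centralizer ({g} : Set H)) ^ 2) := by ring
          _ ≤ 40 * (cK (centralizer ({g} : Set H)) * Nat.card H ^ 2) := by gcongr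
          _ = _ := by ring
      have h4 := ih (centralizer ({g} : Set H)) h3
      calc n ^ m ≤ (80 * Nat.card (centralizer ({g} : Set H))) ^ m := Nat.pow_le_pow_left hg' m
        _ = 80 ^ m * Nat.card (centralizer ({g} : Set H)) ^ m := by rw [mul_pow]
        _ ≤ 80 ^ m * (80 ^ (m * (m + 1)) * cT m (centralizer ({g} : Set H))) := by gcongr
        _ = _ := by ring
    have h5 : Z.card * n ^ m ≤ 80 ^ m * 80 ^ (m * (m + 1)) * cT (m + 1) H := by
      calc Z.card * n ^ m = ∑ g ∈ Z, n ^ m := by simp
        _ ≤ ∑ g ∈ Z, 80 ^ m * 80 ^ (m * (m + 1)) * cT m (centralizer ({g} : Set H)) :=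
            Finset.sum_le_sum h2
        _ = 80 ^ m * 80 ^ (m * (m + 1)) * ∑ g ∈ Z, cT m (centralizer ({g} : Set H)) := by
            rw [Finset.mul_sum]
        _ ≤ 80 ^ m * 80 ^ (m * (m + 1)) * ∑ g : H, cT m (centralizer ({g} : Set H)) := by
            gcongr
            exact Finset.subset_univ _
        _ ≤ 80 ^ m * 80 ^ (m * (m + 1)) * cT (m + 1) H := by
            gcongr
            exact cT_succ m
    calc n ^ (m + 1) = n * n ^ m := by ring
      _ ≤ (80 * Z.card) * n ^ m := by gcongr
      _ = 80 * (Z.card * n ^ m) := by ring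
      _ ≤ 80 * (80 ^ m * 80 ^ (m * (m + 1)) * cT (m + 1) H) := by gcongr
      _ = 80 ^ (m + 1 + m * (m + 1)) * cT (m + 1) H := by ring
      _ ≤ 80 ^ ((m + 1) * (m + 1 + 1)) * cT (m + 1) H := by
          gcongr
          · norm_num
          · nlinarith

end Pool.Agent.StabCay
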