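import Mathlib

/-!
Counting Boolean functions subject to a system of coordinate equations.
-/

namespace Pool.Agent.StabCay

open Function

/-- If two solutions that agree off `A` are equal, then there are at most `2 ^ (|C| - |A|)` solutions. -/
lemma card_le_of_determined {C : Type*} [Fintype C] [DecidableEq C] (P : (C → Bool) → Prop)
    [DecidablePred P] (A : Finset C)
    (h : ∀ f f' : C → Bool, P f → P f' → (∀ c, c ∉ A → f c = f' c) → f = f') (k : ℕ)
    (hk : k ≤ A.card) :
    (Finset.univ.filter P).card * 2 ^ k ≤ 2 ^ Fintype.card C := by
  classical
  have h1 : (Finset.univ.filter P).card ≤ 2 ^ (Fintype.card C - A.card) := by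
    have hinj : Function.Injective
        (fun (f : {f : C → Bool // P f}) => (fun c : {c : C // c ∉ A} => f.1 c.1)) := by
      intro f f' hff
      apply Subtype.ext
      apply h f.1 f'.1 f.2 f'.2
      intro c hc
      exact congrFun hff ⟨c, hc⟩
    have h2 := Fintype.card_le_of_injective _ hinj
    rw [Fintype.card_subtype] at h2
    refine h2.trans (le_of_eq ?_)
    rw [Fintype.card_fun, Fintype.card_bool]
    congr 1
    rw [Fintype.card_subtype_compl]
    simp
  calc (Finset.univ.filter P).card * 2 ^ k
      ≤ 2 ^ (Fintype.card C - A.card) * 2 ^ A.card :=
        Nat.mul_le_mul h1 (Nat.pow_le_pow_right (by norm_num) hk)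
    _ = 2 ^ Fintype.card C := by
        rw [← pow_add]
        congr 1
        have := Finset.card_le_univ A
        omega

/-- A system of equations `f (p j) = f (q j)` (or `f (p j) = false`), with `p` injective and
`q j ≠ p j`, has at most `2 ^ (|C| - |J| / 2)` Boolean solutions. -/
lemma card_solutions_le {C J : Type*} [Fintype C] [DecidableEq C] [Fintype J]
    (p : J → C) (hp : Injective p) (q : J → Option C) (hq : ∀ j, q j ≠ some (p j))
    (k : ℕ) (hk : 2 * k ≤ Fintype.card J + 1) :
    (Finset.univ.filter (fun f : C → Bool => ∀ j, f (p j) = (q j).elim false f)).card * 2 ^ k
      ≤ 2 ^ Fintype.card C := by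
  classical
  set r := Fintype.equivFin C with hr
  set J1 : Finset J := Finset.univ.filter (fun j => ∀ c, q j = some c → r (p j) < r c) with hJ1
  set J2 : Finset J := Finset.univ.filter (fun j => ∀ c, q j = some c → r c < r (p j)) with hJ2
  have hun : J1 ∪ J2 = Finset.univ := by
    ext j
    simp only [hJ1, hJ2, Finset.mem_union, Finset.mem_filter, Finset.mem_univ, true_and, iff_true]
    rcases hqj : q j with _ | c
    · left; intro c hc; cases hc
    · have hne : r c ≠ r (p j) := by
        intro he
        exact hq j (by rw [hqj, r.injective he])
      rcases lt_or_gt_of_ne hne with hlt | hlt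
      · right; intro c' hc'; cases hc'; exact hlt
      · left; intro c' hc'; cases hc'; exact hlt
  have hcard : Fintype.card J ≤ J1.card + J2.card := by
    have := Finset.card_union_le J1 J2
    rw [hun, Finset.card_univ] at this
    exact this
  have hor : k ≤ J1.card ∨ k ≤ J2.card := by omega
  rcases hor with hk1 | hk2
  · apply card_le_of_determined _ (J1.image p)
    · intro f f' hf hf' hag
      have key : ∀ m : ℕ, ∀ c : C, Fintype.card C - (r c : ℕ) ≤ m → f c = f' c := by
        intro m
        induction m with
        | zero =>
          intro c hc
          have := (r c).2
          omega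
        | succ m ih =>
          intro c hc
          by_cases hcA : c ∈ J1.image p
          · obtain ⟨j, hj, rfl⟩ := Finset.mem_image.mp hcA
            rw [hf j, hf' j]
            rcases hqj : q j with _ | c'
            · rfl
            · have hlt : r (p j) < r c' := (Finset.mem_filter.mp hj).2 c' hqj
              simp only [Option.elim_some]
              apply ih
              have h1 : (r (p j) : ℕ) < (r c' : ℕ) := hlt
              have h2 := (r c').2
              omega
          · exact hag c hcA
      funext c
      exact key _ c le_rfl
    · rw [Finset.card_image_of_injective _ hp]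
      exact hk1
  · apply card_le_of_determined _ (J2.image p)
    · intro f f' hf hf' hag
      have key : ∀ m : ℕ, ∀ c : C, (r c : ℕ) < m → f c = f' c := by
        intro m
        induction m with
        | zero =>
          intro c hc
          omega
        | succ m ih =>
          intro c hc
          by_cases hcA : c ∈ J2.image p
          · obtain ⟨j, hj, rfl⟩ := Finset.mem_image.mp hcA
            rw [hf j, hf' j]
            rcases hqj : q j with _ | c'
            · rfl
            · have hlt : r c' < r (p j) := (Finset.mem_filter.mp hj).2 c' hqj
              simp only [Option.elim_some]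
              apply ih
              have h1 : (r c' : ℕ) < (r (p j) : ℕ) := hlt
              omega
          · exact hag c hcA
      funext c
      exact key _ c (r c).2
    · rw [Finset.card_image_of_injective _ hp]
      exact hk2

end Pool.Agent.StabCay
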