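import Pool.Agent.StabCay.Average

/-!
Most Boolean functions on classes are far from being periodic.
-/

namespace Pool.Agent.StabCay

open Finset

universe u

variable {G : Type u} [Group G] [Fintype G] [DecidableEq G]

/-- a centraliser with more than half of the elements is everything -/
lemma commute_of_half (x : G)
    (h : Fintype.card G < 2 * (univ.filter (fun z : G => z * x = x * z)).card) (g : G) :
    g * x = x * g := by
  set Z := univ.filter (fun z : G => z * x = x * z) with hZ
  have hinj : Function.Injective (fun z : G => g * z⁻¹) := by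
    intro a b hab
    exact inv_injective (mul_left_cancel hab)
  have hex : ∃ z ∈ Z, z ∈ Z.image (fun z => g * z⁻¹) := by
    by_contra hcon
    push Not at hcon
    have hd : Disjoint Z (Z.image (fun z => g * z⁻¹)) := Finset.disjoint_left.mpr hcon
    have h1 := Finset.card_union_of_disjoint hd
    rw [Finset.card_image_of_injective _ hinj] at h1
    have h2 := Finset.card_le_univ (Z ∪ Z.image (fun z => g * z⁻¹))
    omega
  obtain ⟨z, hz, hz'⟩ := hex
  obtain ⟨w, hw, hwz⟩ := Finset.mem_image.mp hz'
  have h1 : z * x = x * z := (Finset.mem_filter.mp hz).2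
  have h2 : w * x = x * w := (Finset.mem_filter.mp hw).2
  have h3 : g = z * w := by rw [← hwz]; group
  rw [h3, mul_assoc, h2, ← mul_assoc, h1, mul_assoc]

/-- a non-identity element has at most `3n/4` square roots -/
lemma card_sqrt_le (c : G) (hc : c ≠ 1) :
    4 * (univ.filter (fun h : G => h * h = c)).card ≤ 3 * Fintype.card G := by
  by_contra hcon
  push Not at hcon
  set A := univ.filter (fun h : G => h * h = c) with hA
  have hApos : 0 < A.card := by omega
  obtain ⟨x, hx⟩ := Finset.card_pos.mp hApos
  have hxx : x * x = c := (Finset.mem_filter.mp hx).2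
  set A' := univ.filter (fun y : G => x * y ∈ A) with hA'
  have hA'c : A.card ≤ A'.card := by
    apply Finset.card_le_card_of_injOn (fun y => x⁻¹ * y)
    · intro y hy
      simp only [hA', coe_filter, mem_univ, true_and, Set.mem_ofPred_eq, mul_inv_cancel_left]
      exact hy
    · intro y _ y' _ hyy
      exact mul_left_cancel hyy
  set B := A ∩ A' with hB
  have hBc : Fintype.card G < 2 * B.card := by
    have h1 : (A ∪ A').card + B.card = A.card + A'.card := Finset.card_union_add_card_inter A A'
    have h2 := Finset.card_le_univ (A ∪ A')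
    omega
  have hBx : ∀ y ∈ B, y * x * y⁻¹ = x⁻¹ := by
    intro y hy
    have hyA : y * y = c := (Finset.mem_filter.mp (Finset.mem_inter.mp hy).1).2
    have hxyA : x * y * (x * y) = c :=
      (Finset.mem_filter.mp (Finset.mem_filter.mp (Finset.mem_inter.mp hy).2).2).2
    have h1 : y * x * y = x := by
      have : x * (y * x * y) = x * x := by
        rw [hxx, ← hxyA]; group
      exact mul_left_cancel this
    calc y * x * y⁻¹ = (y * x * y) * (y * y)⁻¹ := by group
      _ = x * (x * x)⁻¹ := by rw [h1, hyA, hxx]
      _ = x⁻¹ := by group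
  have hBpos : 0 < B.card := by omega
  obtain ⟨y, hy⟩ := Finset.card_pos.mp hBpos
  have hZ : B.card ≤ (univ.filter (fun z : G => z * x = x * z)).card := by
    apply Finset.card_le_card_of_injOn (fun w => y⁻¹ * w)
    · intro w hw
      simp only [coe_filter, mem_univ, true_and, Set.mem_ofPred_eq]
      have h1 := hBx w hw
      have h2 := hBx y hy
      have h3 : w * x = x⁻¹ * w := by rw [← h1]; group
      have h4 : y⁻¹ * x⁻¹ = x * y⁻¹ := by rw [← h2]; group
      calc y⁻¹ * w * x = y⁻¹ * (w * x) := by group
        _ = (y⁻¹ * x⁻¹) * w := by rw [h3]; group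
        _ = x * (y⁻¹ * w) := by rw [h4]; group
    · intro w _ w' _ hww
      exact mul_left_cancel hww
  have hcomm := commute_of_half x (by omega) y
  have h1 := hBx y hy
  rw [hcomm] at h1
  apply hc
  rw [← hxx]
  have h2 : x * y * y⁻¹ = x := by group
  rw [h2] at h1
  nth_rewrite 2 [h1]
  exact mul_inv_cancel x

lemma exists_enum {α : Type*} [DecidableEq α] (S : Finset α) (M : ℕ) (hS : S.card ≤ M) :
    ∃ v : Fin M → Option α, ∀ h ∈ S, ∃ i, v i = some h := by
  classical
  refine ⟨fun i => S.toList[(i : ℕ)]?, ?_⟩
  intro h hh
  rw [← Finset.mem_toList] at hh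
  obtain ⟨i, hi, hget⟩ := List.mem_iff_getElem.mp hh
  have hi' : i < S.card := by rwa [Finset.length_toList] at hi
  refine ⟨⟨i, by omega⟩, ?_⟩
  simp only [List.getElem?_eq_getElem hi, hget]

open Classical in
lemma card_fixed_le (g : G) (hg : g ≠ 1) (H : Finset G) (k M : ℕ) (hH : H.card ≤ M)
    (hk : 16 * k + 4 * M ≤ Fintype.card G) :
    (univ.filter (fun f : Cl G → Bool => ∀ h, h ∉ H → f (cl h) = f (cl (h * g)))).card * 2 ^ k
      ≤ 2 ^ Fintype.card (Cl G) := by
  set D := univ.filter (fun h : G => cl h ≠ cl (h * g)) with hD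
  have hDc : Fintype.card G ≤ 4 * D.card := by
    have h1 : (univ.filter (fun h : G => ¬ cl h ≠ cl (h * g))).card
        ≤ (univ.filter (fun h : G => h * h = g)).card := by
      apply Finset.card_le_card_of_injOn (fun h => h * g)
      · intro h hh
        simp only [ne_eq, not_not, coe_filter, mem_univ, true_and, Set.mem_ofPred_eq] at hh ⊢
        rcases cl_eq_iff.mp hh with h2 | h2
        · exact absurd (mul_left_cancel ((mul_one h).trans h2)).symm hg
        · have h3 : h * (h * g) = 1 := by
            nth_rewrite 1 [h2]; exact inv_mul_cancel _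
          have h4 : (h * g) * h = 1 := mul_eq_one_comm.mp h3
          calc h * g * (h * g) = (h * g * h) * g := by group
            _ = g := by rw [h4, one_mul]
      · intro a _ b _ hab
        exact mul_right_cancel hab
    have h2 := card_sqrt_le g hg
    have h3 := Finset.card_filter_add_card_filter_not (s := (univ : Finset G))
      (fun h : G => cl h ≠ cl (h * g))
    rw [Finset.card_univ] at h3
    change D.card + _ = _ at h3
    omega
  set J := {c : Cl G // c ∈ (D \ H).image cl} with hJ
  have hJc : (D \ H).card ≤ 2 * Fintype.card J := by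
    have h1 : Fintype.card J = ((D \ H).image cl).card := Fintype.card_coe _
    rw [h1, mul_comm]
    have h := Finset.card_le_mul_card_image (f := (cl : G → Cl G)) (s := (D \ H)) 2 ?_
    · rw [mul_comm]; exact h
    · intro c _
      obtain ⟨g, rfl⟩ := cl_surjective c
      calc ((D \ H).filter (fun x : G => cl x = cl g)).card ≤ ({g, g⁻¹} : Finset G).card := by
            apply Finset.card_le_card
            intro x hx
            simp only [mem_filter] at hx
            rcases cl_eq_iff.mp hx.2 with h | h
            · simp [h]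
            · simp [h]
        _ ≤ 2 := Finset.card_le_two
  have hDH : D.card ≤ (D \ H).card + M := by
    have := Finset.le_card_sdiff H D
    omega
  have hch : ∀ j : J, ∃ r : G, r ∈ D \ H ∧ cl r = j.1 := by
    intro j
    obtain ⟨r, hr, hrj⟩ := Finset.mem_image.mp j.2
    exact ⟨r, hr, hrj⟩
  choose r hr hrj using hch
  have hsol := card_solutions_le (fun j : J => j.1) Subtype.val_injective
    (fun j => some (cl (r j * g))) (by
      intro j hj
      have h1 := Option.some_injective _ hj
      have h2 := (Finset.mem_filter.mp (Finset.mem_sdiff.mp (hr j)).1).2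
      rw [hrj j] at h2
      exact h2 h1.symm) k (by omega)
  refine le_trans (Nat.mul_le_mul_right _ (Finset.card_le_card ?_)) hsol
  intro f hf
  refine Finset.mem_filter.mpr ⟨Finset.mem_univ _, ?_⟩
  intro j
  have h1 := (Finset.mem_filter.mp hf).2 (r j) (Finset.mem_sdiff.mp (hr j)).2
  rw [hrj j] at h1
  exact h1

open Classical in
/-- few functions are almost periodic -/
lemma card_periodic_le (k M : ℕ) (hk : 16 * k + 4 * M ≤ Fintype.card G) :
    (univ.filter (fun f : Cl G → Bool => ∃ g : G, g ≠ 1 ∧
      (univ.filter (fun h : G => f (cl h) ≠ f (cl (h * g)))).card ≤ M)).card * 2 ^ k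
      ≤ Fintype.card G * (Fintype.card G + 1) ^ M * 2 ^ Fintype.card (Cl G) := by
  set S : G × (Fin M → Option G) → Finset (Cl G → Bool) := fun q => univ.filter (fun f =>
    q.1 ≠ 1 ∧ ∀ h, h ∉ univ.filter (fun h : G => ∃ i, q.2 i = some h) →
      f (cl h) = f (cl (h * q.1))) with hS
  have hsub : (univ.filter (fun f : Cl G → Bool => ∃ g : G, g ≠ 1 ∧
      (univ.filter (fun h : G => f (cl h) ≠ f (cl (h * g)))).card ≤ M)) ⊆
      (univ : Finset (G × (Fin M → Option G))).biUnion S := by
    intro f hf
    obtain ⟨g, hg, hc⟩ := (Finset.mem_filter.mp hf).2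
    obtain ⟨v, hv⟩ := exists_enum _ M hc
    simp only [mem_biUnion, mem_univ, true_and]
    refine ⟨(g, v), ?_⟩
    simp only [hS, mem_filter, mem_univ, true_and]
    refine ⟨hg, ?_⟩
    intro h hh
    by_contra hne
    exact hh (hv h (Finset.mem_filter.mpr ⟨Finset.mem_univ _, hne⟩))
  have hSq : ∀ q, (S q).card * 2 ^ k ≤ 2 ^ Fintype.card (Cl G) := by
    intro q
    by_cases hq : q.1 = 1
    · have : S q = ∅ := by
        apply Finset.filter_eq_empty_iff.mpr
        rintro f _ ⟨ha, _⟩
        exact ha hq
      rw [this]; simp
    · have hcard : (univ.filter (fun h : G => ∃ i, q.2 i = some h)).card ≤ M := by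
        calc (univ.filter (fun h : G => ∃ i, q.2 i = some h)).card
            ≤ ((univ : Finset (Fin M)).image (fun i => (q.2 i).getD 1)).card := by
              apply Finset.card_le_card
              intro h hh
              obtain ⟨i, hi⟩ := (Finset.mem_filter.mp hh).2
              rw [Finset.mem_image]
              exact ⟨i, Finset.mem_univ _, by rw [hi]; rfl⟩
          _ ≤ (univ : Finset (Fin M)).card := Finset.card_image_le
          _ = M := by simp
      refine le_trans (Nat.mul_le_mul_right _ (Finset.card_le_card ?_))
        (card_fixed_le q.1 hq _ k M hcard hk)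
      intro f hf
      simp only [hS, mem_filter, mem_univ, true_and] at hf ⊢
      exact hf.2
  calc _ ≤ (∑ q, (S q).card) * 2 ^ k :=
        Nat.mul_le_mul_right _ ((Finset.card_le_card hsub).trans Finset.card_biUnion_le)
    _ = ∑ q, (S q).card * 2 ^ k := by rw [Finset.sum_mul]
    _ ≤ ∑ _q : G × (Fin M → Option G), 2 ^ Fintype.card (Cl G) :=
        Finset.sum_le_sum (fun q _ => hSq q)
    _ = _ := by
        rw [Finset.sum_const, smul_eq_mul, Finset.card_univ, Fintype.card_prod, Fintype.card_fun,
          Fintype.card_option, Fintype.card_fin]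

end Pool.Agent.StabCay
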