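import Pool.Agent.StabCay.Algebra
import Pool.Agent.StabCay.Commute

/-!
Rigidity: if `e` is a word `g^{±1} (h g)^{±1} h^{±1}` for almost all pairs `(g,h)` then `e = 1`.
-/

namespace Pool.Agent.StabCay

open Finset

universe u

/-- `x` or `x⁻¹` -/
def sg {A : Type*} [Group A] (s : Bool) (x : A) : A := if s then x⁻¹ else x

lemma sg_true {A : Type*} [Group A] (x : A) : sg true x = x⁻¹ := rfl
lemma sg_false {A : Type*} [Group A] (x : A) : sg false x = x := rfl

lemma sg_injective {A : Type*} [Group A] (s : Bool) : Function.Injective (sg s : A → A) := by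
  cases s
  · intro x y h; exact h
  · intro x y h; exact inv_injective h

/-- combinatorial contradiction in a commutative group -/
lemma quad_false {A : Type*} [CommGroup A] (P : A → Prop)
    (hP1 : ¬ P 1) (hPE : ∀ x y, P x → P y → x = y ∨ x = y⁻¹) (q : Fin 4 → A)
    (C1 : ∀ i j, i ≠ j → ∀ s, P (q i) ∨ P (q j) ∨ P (q i * sg s (q j)))
    (C2 : ∀ i j k, i ≠ j → i ≠ k → j ≠ k → ∀ s,
      P (q i * sg s (q j)) ∨ P (q k) ∨ P (q i * sg s (q j) * q k))
    (C3 : ∀ i j k l, i ≠ j → i ≠ k → i ≠ l → j ≠ k → j ≠ l → k ≠ l → ∀ s t,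
      P (q i * sg s (q j)) ∨ P (q k * sg t (q l)) ∨ P (q i * sg s (q j) * (q k * sg t (q l)))) :
    False := by
  have step1 : ∀ i j k, i ≠ j → i ≠ k → j ≠ k → ¬ P (q i) → ¬ P (q j) → ¬ P (q k) → False := by
    intro i j k hij hik hjk hi hj hk
    have a1 : P (q i * q j) := by
      rcases C1 i j hij false with h | h | h
      · exact absurd h hi
      · exact absurd h hj
      · exact h
    have a2 : P (q i * (q j)⁻¹) := by
      rcases C1 i j hij true with h | h | h
      · exact absurd h hi
      · exact absurd h hj
      · exact h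
    have b1 : P (q j * q k) := by
      rcases C1 j k hjk false with h | h | h
      · exact absurd h hj
      · exact absurd h hk
      · exact h
    have b2 : P (q j * (q k)⁻¹) := by
      rcases C1 j k hjk true with h | h | h
      · exact absurd h hj
      · exact absurd h hk
      · exact h
    have c1 : P (q i * q k) := by
      rcases C1 i k hik false with h | h | h
      · exact absurd h hi
      · exact absurd h hk
      · exact h
    have c2 : P (q i * (q k)⁻¹) := by
      rcases C1 i k hik true with h | h | h
      · exact absurd h hi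
      · exact absurd h hk
      · exact h
    rcases hPE _ _ a2 b2 with h | h
    · -- r = r'
      have hk' : q k = q j * q j * (q i)⁻¹ := by
        have : q k = q j * (q i * (q j)⁻¹)⁻¹ := by
          rw [h, mul_inv_rev, inv_inv, mul_comm (q k), mul_inv_cancel_left]
        rw [this, mul_inv_rev, inv_inv, mul_assoc]
      have c1' : q i * q k = q j * q j := by
        rw [hk', mul_comm, mul_assoc, inv_mul_cancel, mul_one]
      rw [c1'] at c1
      rcases hPE _ _ c1 a2 with h' | h'
      · -- q_j^2 = q_i q_j^{-1}
        apply hP1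
        have : q j * q k = 1 := by
          rw [hk']
          calc q j * (q j * q j * (q i)⁻¹) = (q j * q j) * (q j * (q i)⁻¹) := by
                simp only [mul_left_comm]
            _ = (q i * (q j)⁻¹) * (q j * (q i)⁻¹) := by rw [h']
            _ = 1 := by group
        rw [this] at b1
        exact b1
      · apply hP1
        have : q i * q j = 1 := by
          calc q i * q j = (q i * (q j)⁻¹) * (q j * q j) := by group
            _ = (q i * (q j)⁻¹) * (q i * (q j)⁻¹)⁻¹ := by rw [h']
            _ = 1 := mul_inv_cancel _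
        rw [this] at a1
        exact a1
    · apply hP1
      have : q i * (q k)⁻¹ = 1 := by
        calc q i * (q k)⁻¹ = (q i * (q j)⁻¹) * (q j * (q k)⁻¹) := by group
          _ = 1 := by rw [h, inv_mul_cancel]
      rw [this] at c2
      exact c2
  have step2a : ∀ i j, P (q i) → P (q j) → ∃ s, q i * sg s (q j) = 1 := by
    intro i j hi hj
    rcases hPE _ _ hi hj with h | h
    · exact ⟨true, by rw [sg_true, h, mul_inv_cancel]⟩
    · exact ⟨false, by rw [sg_false, h, inv_mul_cancel]⟩
  have step2 : ∀ i j k, i ≠ j → i ≠ k → j ≠ k → P (q i) → P (q j) → P (q k) := by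
    intro i j k hij hik hjk hi hj
    obtain ⟨s, hs⟩ := step2a i j hi hj
    rcases C2 i j k hij hik hjk s with h | h | h
    · rw [hs] at h; exact absurd h hP1
    · exact h
    · rw [hs, one_mul] at h; exact h
  have step3 : ∀ i j k l, i ≠ j → i ≠ k → i ≠ l → j ≠ k → j ≠ l → k ≠ l → P (q i) → P (q j)
      → False := by
    intro i j k l hij hik hil hjk hjl hkl hi hj
    have hk := step2 i j k hij hik hjk hi hj
    have hl := step2 i j l hij hil hjl hi hj
    obtain ⟨s, hs⟩ := step2a i j hi hj
    obtain ⟨t, ht⟩ := step2a k l hk hl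
    rcases C3 i j k l hij hik hil hjk hjl hkl s t with h | h | h
    · rw [hs] at h; exact hP1 h
    · rw [ht] at h; exact hP1 h
    · rw [hs, ht, one_mul] at h; exact hP1 h
  by_cases h0 : P (q 0) <;> by_cases h1 : P (q 1) <;> by_cases h2 : P (q 2) <;>
    by_cases h3 : P (q 3)
  all_goals first
    | exact step3 0 1 2 3 (by decide) (by decide) (by decide) (by decide) (by decide) (by decide) h0 h1
    | exact step3 0 2 1 3 (by decide) (by decide) (by decide) (by decide) (by decide) (by decide) h0 h2
    | exact step3 0 3 1 2 (by decide) (by decide) (by decide) (by decide) (by decide) (by decide) h0 h3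
    | exact step3 1 2 0 3 (by decide) (by decide) (by decide) (by decide) (by decide) (by decide) h1 h2
    | exact step3 1 3 0 2 (by decide) (by decide) (by decide) (by decide) (by decide) (by decide) h1 h3
    | exact step3 2 3 0 1 (by decide) (by decide) (by decide) (by decide) (by decide) (by decide) h2 h3
    | exact step1 0 1 2 (by decide) (by decide) (by decide) h0 h1 h2
    | exact step1 0 1 3 (by decide) (by decide) (by decide) h0 h1 h3
    | exact step1 0 2 3 (by decide) (by decide) (by decide) h0 h2 h3
    | exact step1 1 2 3 (by decide) (by decide) (by decide) h1 h2 h3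

/-- words in commuting elements -/
lemma isWord_comm {G : Type*} [Group G] {e g h : G} (he : e ≠ 1) (hc : g * h = h * g)
    (hw : IsWord e g h) :
    (g * g = e ∨ g * g = e⁻¹) ∨ (h * h = e ∨ h * h = e⁻¹) ∨
      ((g * h) * (g * h) = e ∨ (g * h) * (g * h) = e⁻¹) := by
  obtain ⟨a, ha, b, hb, c, hc', habc⟩ := hw
  rcases ha with rfl | ha <;> rcases hb with rfl | hb <;> rcases hc' with rfl | hc'
  · right; right; left; rw [habc]; group
  · simp only [Set.mem_singleton_iff] at hc'; subst hc'
    left; left; rw [habc, ← hc]; group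
  · simp only [Set.mem_singleton_iff] at hb; subst hb
    exfalso; apply he; rw [habc]; group
  · simp only [Set.mem_singleton_iff] at hb hc'; subst hb; subst hc'
    right; left; right
    rw [habc]; simp [mul_assoc]
  · simp only [Set.mem_singleton_iff] at ha; subst ha
    right; left; left; rw [habc, ← hc]; group
  · simp only [Set.mem_singleton_iff] at ha hc'; subst ha; subst hc'
    exfalso; apply he; rw [habc, ← hc]; group
  · simp only [Set.mem_singleton_iff] at ha hb; subst ha; subst hb
    left; right
    rw [habc]; simp [mul_assoc]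
  · simp only [Set.mem_singleton_iff] at ha hb hc'; subst ha; subst hb; subst hc'
    right; right; right
    rw [habc]
    have : (g * h) * (g * h) = h * h * g * g := by
      calc (g * h) * (g * h) = (h * g) * (g * h) := by rw [hc]
        _ = h * g * (h * g) := by rw [hc]
        _ = h * (g * h) * g := by group
        _ = h * (h * g) * g := by rw [hc]
        _ = h * h * g * g := by group
    rw [this]
    simp only [mul_inv_rev, inv_inv, mul_assoc]

/-- the constant -/
def DD : ℕ := 300 * 80 ^ 20

section

variable {G : Type u} [Group G] [Fintype G] [DecidableEq G]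

omit [DecidableEq G] in
lemma numComm_eq_cK [DecidableEq G] : numComm G = cK G := by
  unfold numComm cK
  rw [natcard_pair (fun g h : G => h * g = g * h)]
  refine Finset.sum_congr rfl (fun g _ => ?_)
  rw [Nat.card_eq_fintype_card, Fintype.card_subtype]

/-- the three families of pairs built from a quadruple -/
def pr (m : Fin 3) (s t : Bool) (v : Fin 4 → G) : G × G :=
  if m = 0 then (v 0, sg s (v 1))
  else if m = 1 then (v 0 * sg s (v 1), v 2)
  else (v 0 * sg s (v 1), v 2 * sg t (v 3))

/-- complementary coordinates -/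
def pr' (m : Fin 3) (v : Fin 4 → G) : G × G :=
  if m = 0 then (v 2, v 3) else (v 1, v 3)

omit [Fintype G] [DecidableEq G] in
lemma pr_injective (m : Fin 3) (s t : Bool) :
    Function.Injective (fun v : Fin 4 → G => (pr m s t v, pr' m v)) := by
  intro v w hvw
  fin_cases m
  · simp only [pr, pr', Fin.zero_eta, Fin.isValue, ↓reduceIte, Prod.mk.injEq] at hvw
    obtain ⟨⟨h0, h1⟩, h2, h3⟩ := hvw
    have h1' := sg_injective s h1
    funext i
    fin_cases i
    · exact h0
    · exact h1'
    · exact h2
    · exact h3
  · simp only [pr, pr', Fin.mk_one, Fin.isValue, one_ne_zero, ↓reduceIte, Prod.mk.injEq] at hvw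
    obtain ⟨⟨h0, h2⟩, h1, h3⟩ := hvw
    rw [h1] at h0
    have h0' := mul_right_cancel h0
    funext i
    fin_cases i
    · exact h0'
    · exact h1
    · exact h2
    · exact h3
  · simp only [pr, pr', Fin.reduceFinMk, Fin.isValue, Fin.reduceEq, ↓reduceIte,
      Prod.mk.injEq] at hvw
    obtain ⟨⟨h0, h2⟩, h1, h3⟩ := hvw
    rw [h1] at h0
    rw [h3] at h2
    have h0' := mul_right_cancel h0
    have h2' := mul_right_cancel h2
    funext i
    fin_cases i
    · exact h0'
    · exact h1
    · exact h2'
    · exact h3

lemma card_pr_mem_le (B : Finset (G × G)) (m : Fin 3) (s t : Bool) (σ : Equiv.Perm (Fin 4)) :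
    (univ.filter (fun v : Fin 4 → G => pr m s t (v ∘ σ) ∈ B)).card
      ≤ B.card * Fintype.card G ^ 2 := by
  have h1 : (univ.filter (fun v : Fin 4 → G => pr m s t (v ∘ σ) ∈ B)).card
      ≤ (B ×ˢ (univ : Finset (G × G))).card := by
    apply Finset.card_le_card_of_injOn (fun v => (pr m s t (v ∘ σ), pr' m (v ∘ σ)))
    · intro v hv
      simp only [coe_filter, mem_univ, true_and, Set.mem_ofPred_eq] at hv
      simp only [coe_product, coe_univ, Set.mem_prod, mem_coe, Set.mem_univ, and_true]
      exact hv
    · intro v _ w _ hvw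
      have := pr_injective m s t hvw
      funext i
      have h2 := congrFun this (σ.symm i)
      simpa using h2
  refine h1.trans (le_of_eq ?_)
  rw [card_product, Finset.card_univ, Fintype.card_prod, sq]

/-- **Rigidity.** If `e` is a word in almost all pairs then `e = 1`. -/
theorem word_rigid (e : G) (B : Finset (G × G)) (hB : ∀ g h : G, (g, h) ∉ B → IsWord e g h)
    (hBc : DD * B.card < Fintype.card G ^ 2) : e = 1 := by
  classical
  by_contra he
  have hn : 0 < Fintype.card G := Fintype.card_pos
  have hDD : 288 * 80 ^ 20 ≤ DD := by unfold DD; norm_num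
  have hDD10 : 10 ≤ DD := by unfold DD; norm_num
  have h40 : Fintype.card G ^ 2 ≤ 40 * numComm G := by
    apply numComm_ge e he B hB
    calc 10 * B.card ≤ DD * B.card := Nat.mul_le_mul_right _ hDD10
      _ ≤ Fintype.card G ^ 2 := hBc.le
  rw [numComm_eq_cK, ← Nat.card_eq_fintype_card] at h40
  have h4 := cT_ge 4 G h40
  set T := univ.filter (fun v : Fin 4 → G => ∀ i j, v i * v j = v j * v i) with hT
  have hTc : cT 4 G = T.card := by
    unfold cT
    rw [Nat.card_eq_fintype_card, Fintype.card_subtype]
  rw [hTc, Nat.card_eq_fintype_card] at h4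
  -- find a good commuting quadruple
  have hgood : ∃ v ∈ T, ∀ (σ : Equiv.Perm (Fin 4)) (m : Fin 3) (s t : Bool),
      pr m s t (v ∘ σ) ∉ B := by
    by_contra hcon
    push Not at hcon
    have hsub : T ⊆ (univ : Finset (Equiv.Perm (Fin 4) × Fin 3 × Bool × Bool)).biUnion
        (fun x => univ.filter (fun v : Fin 4 → G => pr x.2.1 x.2.2.1 x.2.2.2 (v ∘ x.1) ∈ B)) := by
      intro v hv
      obtain ⟨σ, m, s, t, h⟩ := hcon v hv
      simp only [mem_biUnion, mem_univ, mem_filter, true_and]
      exact ⟨(σ, m, s, t), h⟩
    have hc1 := (Finset.card_le_card hsub).trans Finset.card_biUnion_le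
    have hc2 : ∑ x : Equiv.Perm (Fin 4) × Fin 3 × Bool × Bool,
        (univ.filter (fun v : Fin 4 → G => pr x.2.1 x.2.2.1 x.2.2.2 (v ∘ x.1) ∈ B)).card
        ≤ 288 * (B.card * Fintype.card G ^ 2) := by
      calc _ ≤ ∑ _x : Equiv.Perm (Fin 4) × Fin 3 × Bool × Bool, B.card * Fintype.card G ^ 2 :=
            Finset.sum_le_sum (fun x _ => card_pr_mem_le B _ _ _ _)
        _ = 288 * (B.card * Fintype.card G ^ 2) := by
            rw [Finset.sum_const, smul_eq_mul, Finset.card_univ, Fintype.card_prod,
              Fintype.card_prod, Fintype.card_prod, Fintype.card_perm, Fintype.card_fin,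
              Fintype.card_fin, Fintype.card_bool]
            norm_num [Nat.factorial]
    have hc3 := hc1.trans hc2
    have hlt : Fintype.card G ^ 4 < Fintype.card G ^ 4 := by
      calc Fintype.card G ^ 4 ≤ 80 ^ (4 * (4 + 1)) * T.card := h4
        _ ≤ 80 ^ (4 * (4 + 1)) * (288 * (B.card * Fintype.card G ^ 2)) := by gcongr
        _ = (288 * 80 ^ 20) * B.card * Fintype.card G ^ 2 := by ring
        _ ≤ DD * B.card * Fintype.card G ^ 2 := by gcongr
        _ < Fintype.card G ^ 2 * Fintype.card G ^ 2 :=
            Nat.mul_lt_mul_of_pos_right hBc (by positivity)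
        _ = Fintype.card G ^ 4 := by ring
    exact lt_irrefl _ hlt
  obtain ⟨v, hvT, hv⟩ := hgood
  have hvc : ∀ i j, v i * v j = v j * v i := (Finset.mem_filter.mp hvT).2
  have hcl : IsMulCommutative (Subgroup.closure (Set.range v)) := by
    apply Subgroup.isMulCommutative_closure
    rintro _ ⟨i, rfl⟩ _ ⟨j, rfl⟩
    exact hvc i j
  letI : CommGroup (Subgroup.closure (Set.range v)) :=
    { (inferInstance : Group (Subgroup.closure (Set.range v))) with
      mul_comm := fun a b => hcl.is_comm.comm a b }
  let w : Fin 4 → Subgroup.closure (Set.range v) :=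
    fun i => ⟨v i, Subgroup.subset_closure ⟨i, rfl⟩⟩
  let P : Subgroup.closure (Set.range v) → Prop := fun x => (x : G) = e ∨ (x : G) = e⁻¹
  have hPinv : ∀ x, P x⁻¹ → P x := by
    rintro x (h | h)
    · right
      rw [← h, Subgroup.coe_inv, inv_inv]
    · left
      rw [Subgroup.coe_inv] at h
      exact inv_injective h
  -- the basic property of good pairs
  have key : ∀ g h : Subgroup.closure (Set.range v), ((g : G), (h : G)) ∉ B →
      P (g * g) ∨ P (h * h) ∨ P ((g * h) * (g * h)) := by
    intro g h hgh
    have hcomm : (g : G) * h = h * g := by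
      have := mul_comm g h
      exact congrArg Subtype.val this
    rcases isWord_comm he hcomm (hB g h hgh) with h1 | h1 | h1
    · left; exact h1
    · right; left; exact h1
    · right; right; exact h1
  have hsgw : ∀ (s : Bool) (j : Fin 4),
      ((sg s (w j) : Subgroup.closure (Set.range v)) : G) = sg s (v j) := by
    intro s j; cases s <;> rfl
  have hsq : ∀ (s : Bool) (x : Subgroup.closure (Set.range v)), sg s x * sg s x = sg s (x * x) := by
    intro s x; cases s
    · rfl
    · simp only [sg_true, mul_inv_rev]
  have hPsg : ∀ (s : Bool) (x : Subgroup.closure (Set.range v)), P (sg s x) → P x := by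
    intro s x hx; cases s
    · exact hx
    · exact hPinv x hx
  -- transport of permutations
  have perm : ∀ i j k l : Fin 4, i ≠ j → i ≠ k → i ≠ l → j ≠ k → j ≠ l → k ≠ l →
      ∃ σ : Equiv.Perm (Fin 4), σ 0 = i ∧ σ 1 = j ∧ σ 2 = k ∧ σ 3 = l := by
    decide
  have ext3 : ∀ i j k : Fin 4, i ≠ j → i ≠ k → j ≠ k → ∃ l, i ≠ l ∧ j ≠ l ∧ k ≠ l := by
    decide
  have ext2 : ∀ i j : Fin 4, i ≠ j → ∃ k l, i ≠ k ∧ i ≠ l ∧ j ≠ k ∧ j ≠ l ∧ k ≠ l := by
    decide
  apply quad_false P (q := fun i => w i * w i)
  · rintro (h | h)
    · exact he (by rw [← h]; rfl)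
    · apply he
      have : e⁻¹ = 1 := by rw [← h]; rfl
      exact inv_eq_one.mp this
  · rintro x y (hx | hx) (hy | hy)
    · left; exact Subtype.ext (by rw [hx, hy])
    · right; exact Subtype.ext (by rw [Subgroup.coe_inv, hx, hy, inv_inv])
    · right; exact Subtype.ext (by rw [Subgroup.coe_inv, hx, hy])
    · left; exact Subtype.ext (by rw [hx, hy])
  · intro i j hij s
    obtain ⟨k, l, h1, h2, h3, h4, h5⟩ := ext2 i j hij
    obtain ⟨σ, s0, s1, s2, s3⟩ := perm i j k l hij h1 h2 h3 h4 h5
    have hb := hv σ 0 s false
    simp only [pr, Fin.isValue, ↓reduceIte, Function.comp_apply, s0, s1] at hb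
    rw [← hsgw] at hb
    rcases key (w i) (sg s (w j)) hb with h | h | h
    · left; exact h
    · right; left; rw [hsq] at h; exact hPsg s _ h
    · right; right
      rw [mul_mul_mul_comm, hsq] at h
      exact h
  · intro i j k hij hik hjk s
    obtain ⟨l, h1, h2, h3⟩ := ext3 i j k hij hik hjk
    obtain ⟨σ, s0, s1, s2, s3⟩ := perm i j k l hij hik h1 hjk h2 h3
    have hb := hv σ 1 s false
    simp only [pr, Fin.isValue, one_ne_zero, ↓reduceIte, Function.comp_apply, s0, s1, s2] at hb
    rw [← hsgw] at hb
    rcases key (w i * sg s (w j)) (w k) hb with h | h | h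
    · left; rw [mul_mul_mul_comm, hsq] at h; exact h
    · right; left; exact h
    · right; right
      rw [mul_mul_mul_comm, mul_mul_mul_comm (w i), hsq] at h
      exact h
  · intro i j k l hij hik hil hjk hjl hkl s t
    obtain ⟨σ, s0, s1, s2, s3⟩ := perm i j k l hij hik hil hjk hjl hkl
    have hb := hv σ 2 s t
    simp only [pr, Fin.isValue, Fin.reduceEq, ↓reduceIte, Function.comp_apply, s0, s1, s2,
      s3] at hb
    rw [← hsgw, ← hsgw] at hb
    rcases key (w i * sg s (w j)) (w k * sg t (w l)) hb with h | h | h
    · left; rw [mul_mul_mul_comm, hsq] at h; exact h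
    · right; left; rw [mul_mul_mul_comm, hsq] at h; exact h
    · right; right
      rw [mul_mul_mul_comm, mul_mul_mul_comm (w i), mul_mul_mul_comm (w k), hsq, hsq] at h
      exact h

end

end Pool.Agent.StabCay
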