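import Pool.Agent.StabCay.Average
import Pool.Agent.StabCay.Quad

/-!
If a pair of maps preserves `f` and fails rarely then it comes from an automorphism.
-/

namespace Pool.Agent.StabCay

open Finset

universe u

variable {G : Type u} [Group G] [Fintype G] [DecidableEq G]

/-- pairs `(g,h)` that are bad for `x` -/
noncomputable def badAt (F : Finset (G × G)) (x : G) : Finset (G × G) :=
  univ.filter (fun p => (p.1⁻¹ * x, x) ∈ F ∨ (p.1⁻¹ * x, p.2 * x) ∈ F ∨ (x, p.2 * x) ∈ F)

omit [DecidableEq G] in
lemma mem_failSet {A B : G → G × Bool} {x y : G} :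
    (x, y) ∈ failSet A B ↔ FailAt (A x) (B y) x y := by
  classical
  unfold failSet
  rw [Finset.mem_filter]
  simp

lemma mem_badAt {F : Finset (G × G)} {x g h : G} :
    (g, h) ∈ badAt F x ↔ (g⁻¹ * x, x) ∈ F ∨ (g⁻¹ * x, h * x) ∈ F ∨ (x, h * x) ∈ F := by
  unfold badAt
  rw [Finset.mem_filter]
  simp

lemma sum_badAt_le (F : Finset (G × G)) :
    ∑ x : G, (badAt F x).card ≤ 3 * (Fintype.card G * F.card) := by
  classical
  have h1 : ∑ x : G, (univ.filter (fun p : G × G => (p.1⁻¹ * x, x) ∈ F)).card
      ≤ Fintype.card G * F.card := by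
    rw [← Finset.card_sigma]
    rw [← Finset.card_univ, ← Finset.card_product]
    apply Finset.card_le_card_of_injOn (fun q : Σ _ : G, G × G => (q.2.2, (q.2.1⁻¹ * q.1, q.1)))
    · rintro ⟨x, g, h⟩ hq
      simp only [coe_sigma, coe_univ, coe_filter, mem_univ, true_and, Set.mem_sigma_iff,
        Set.mem_univ, Set.mem_ofPred_eq] at hq
      simp only [coe_product, coe_univ, Set.mem_prod, Set.mem_univ, true_and]
      exact hq
    · rintro ⟨x, g, h⟩ _ ⟨x', g', h'⟩ _ he
      simp only [Prod.mk.injEq] at he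
      obtain ⟨e1, e2, e3⟩ := he
      subst e1 e3
      have := mul_right_cancel e2
      rw [inv_inj] at this
      subst this
      rfl
  have h2 : ∑ x : G, (univ.filter (fun p : G × G => (p.1⁻¹ * x, p.2 * x) ∈ F)).card
      ≤ Fintype.card G * F.card := by
    calc _ ≤ ∑ _x : G, F.card := by
          refine Finset.sum_le_sum (fun x _ => ?_)
          apply Finset.card_le_card_of_injOn (fun p : G × G => (p.1⁻¹ * x, p.2 * x))
          · intro p hp
            simpa using hp
          · rintro ⟨g, h⟩ _ ⟨g', h'⟩ _ he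
            simp only [Prod.mk.injEq] at he
            have e1 := mul_right_cancel he.1
            have e2 := mul_right_cancel he.2
            rw [inv_inj] at e1
            rw [e1, e2]
      _ = _ := by simp
  have h3 : ∑ x : G, (univ.filter (fun p : G × G => (x, p.2 * x) ∈ F)).card
      ≤ Fintype.card G * F.card := by
    rw [← Finset.card_sigma]
    rw [← Finset.card_univ, ← Finset.card_product]
    apply Finset.card_le_card_of_injOn (fun q : Σ _ : G, G × G => (q.2.1, (q.1, q.2.2 * q.1)))
    · rintro ⟨x, g, h⟩ hq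
      simp only [coe_sigma, coe_univ, coe_filter, mem_univ, true_and, Set.mem_sigma_iff,
        Set.mem_univ, Set.mem_ofPred_eq] at hq
      simp only [coe_product, coe_univ, Set.mem_prod, Set.mem_univ, true_and]
      exact hq
    · rintro ⟨x, g, h⟩ _ ⟨x', g', h'⟩ _ he
      simp only [Prod.mk.injEq] at he
      obtain ⟨e1, e2, e3⟩ := he
      subst e1 e2
      have := mul_right_cancel e3
      subst this
      rfl
  have h4 : ∀ x, (badAt F x).card ≤ (univ.filter (fun p : G × G => (p.1⁻¹ * x, x) ∈ F)).card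
      + ((univ.filter (fun p : G × G => (p.1⁻¹ * x, p.2 * x) ∈ F)).card
      + (univ.filter (fun p : G × G => (x, p.2 * x) ∈ F)).card) := by
    intro x
    unfold badAt
    rw [Finset.filter_or, Finset.filter_or]
    refine (Finset.card_union_le _ _).trans ?_
    gcongr
    exact Finset.card_union_le _ _
  calc ∑ x : G, (badAt F x).card ≤ _ := Finset.sum_le_sum (fun x _ => h4 x)
    _ ≤ 3 * (Fintype.card G * F.card) := by
        rw [Finset.sum_add_distrib, Finset.sum_add_distrib]
        omega

lemma isWord_of_not_bad (A B : G → G × Bool) (x g h : G)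
    (hb : (g, h) ∉ badAt (failSet A B) x) : IsWord ((B x).1 * ((A x).1)⁻¹) g h := by
  classical
  rw [mem_badAt, mem_failSet, mem_failSet, mem_failSet] at hb
  simp only [FailAt, not_or, not_not] at hb
  obtain ⟨⟨_, e1⟩, ⟨_, e2⟩, ⟨_, e3⟩⟩ := hb
  have f1 : x * (g⁻¹ * x)⁻¹ = g := by group
  have f2 : h * x * (g⁻¹ * x)⁻¹ = h * g := by group
  have f3 : h * x * x⁻¹ = h := by group
  rw [f1] at e1
  rw [f2] at e2
  rw [f3] at e3
  refine ⟨(B x).1 * ((A (g⁻¹ * x)).1)⁻¹, ?_, (A (g⁻¹ * x)).1 * ((B (h * x)).1)⁻¹, ?_,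
    (B (h * x)).1 * ((A x).1)⁻¹, ?_, ?_⟩
  · exact cl_eq_iff.mp e1
  · rcases cl_eq_iff.mp e2 with h | h
    · right
      rw [Set.mem_singleton_iff, ← h]; group
    · left
      rw [← inv_inj, ← h]; group
  · exact cl_eq_iff.mp e3
  · group

lemma card_ne_le (A B : G → G × Bool) (L : ℕ)
    (hF : L * (failSet A B).card < Fintype.card G ^ 2) :
    L * (univ.filter (fun x : G => (A x).1 ≠ (B x).1)).card ≤ 3 * DD * Fintype.card G := by
  classical
  set n := Fintype.card G with hn
  have hnpos : 0 < n := Fintype.card_pos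
  have h1 : ∀ x ∈ univ.filter (fun x : G => (A x).1 ≠ (B x).1),
      n ^ 2 ≤ DD * (badAt (failSet A B) x).card := by
    intro x hx
    by_contra hcon
    push Not at hcon
    have := word_rigid ((B x).1 * ((A x).1)⁻¹) (badAt (failSet A B) x)
      (fun g h hb => isWord_of_not_bad A B x g h hb) hcon
    have h2 : (B x).1 = (A x).1 := mul_inv_eq_one.mp this
    exact (Finset.mem_filter.mp hx).2 h2.symm
  have h2 : (univ.filter (fun x : G => (A x).1 ≠ (B x).1)).card * n ^ 2
      ≤ DD * (3 * (n * (failSet A B).card)) := by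
    calc (univ.filter (fun x : G => (A x).1 ≠ (B x).1)).card * n ^ 2
        = ∑ _x ∈ univ.filter (fun x : G => (A x).1 ≠ (B x).1), n ^ 2 := by simp
      _ ≤ ∑ x ∈ univ.filter (fun x : G => (A x).1 ≠ (B x).1),
          DD * (badAt (failSet A B) x).card := Finset.sum_le_sum h1
      _ ≤ ∑ x : G, DD * (badAt (failSet A B) x).card :=
          Finset.sum_le_sum_of_subset (Finset.filter_subset _ _)
      _ = DD * ∑ x : G, (badAt (failSet A B) x).card := by rw [Finset.mul_sum]
      _ ≤ _ := Nat.mul_le_mul_left _ (sum_badAt_le _)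
  have h3 : n ^ 2 * (L * (univ.filter (fun x : G => (A x).1 ≠ (B x).1)).card)
      ≤ n ^ 2 * (3 * DD * n) := by
    calc _ = L * ((univ.filter (fun x : G => (A x).1 ≠ (B x).1)).card * n ^ 2) := by ring
      _ ≤ L * (DD * (3 * (n * (failSet A B).card))) := by gcongr
      _ = (3 * DD * n) * (L * (failSet A B).card) := by ring
      _ ≤ (3 * DD * n) * n ^ 2 := by gcongr
      _ = _ := by ring
  exact Nat.le_of_mul_le_mul_left h3 (by positivity)

/-- the arithmetic of the two parts -/
lemma parts_arith (n L P P' Q Q' F : ℕ) (hL : 4 ≤ L) (hP : P + P' = n)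
    (hQ : Q + Q' = n) (h : P * Q + P' * Q' ≤ F) (hF : L * F < n ^ 2) (hPP : P' ≤ P) :
    L * P' ≤ 2 * n ∧ L * Q ≤ 2 * n := by
  have h2P : n ≤ 2 * P := by omega
  have a1 : L * Q < 2 * n := by
    have : n * (L * Q) < n * (2 * n) := by
      calc n * (L * Q) ≤ 2 * P * (L * Q) := by gcongr
        _ = 2 * (L * (P * Q)) := by ring
        _ ≤ 2 * (L * F) := by gcongr; omega
        _ < 2 * n ^ 2 := by omega
        _ = n * (2 * n) := by ring
    exact Nat.lt_of_mul_lt_mul_left this
  have h2Q : n ≤ 2 * Q' := by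
    have : 4 * Q ≤ L * Q := by gcongr
    omega
  have a2 : L * P' < 2 * n := by
    have : n * (L * P') < n * (2 * n) := by
      calc n * (L * P') ≤ 2 * Q' * (L * P') := by gcongr
        _ = 2 * (L * (P' * Q')) := by ring
        _ ≤ 2 * (L * F) := by gcongr; omega
        _ < 2 * n ^ 2 := by omega
        _ = n * (2 * n) := by ring
    exact Nat.lt_of_mul_lt_mul_left this
  exact ⟨a2.le, a1.le⟩

lemma exists_part (A B : G → G × Bool) (L : ℕ) (hL : 4 ≤ L)
    (hF : L * (failSet A B).card < Fintype.card G ^ 2) :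
    ∃ i : Bool, L * (univ.filter (fun x : G => (A x).2 ≠ i)).card ≤ 2 * Fintype.card G ∧
      L * (univ.filter (fun x : G => (B x).2 ≠ !i)).card ≤ 2 * Fintype.card G := by
  classical
  set P : Bool → ℕ := fun i => (univ.filter (fun x : G => (A x).2 = i)).card with hP
  set Q : Bool → ℕ := fun i => (univ.filter (fun x : G => (B x).2 = i)).card with hQ
  have hsumP : P true + P false = Fintype.card G := by
    have := Finset.card_filter_add_card_filter_not (s := (univ : Finset G))
      (fun x : G => (A x).2 = true)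
    rw [Finset.card_univ] at this
    rw [← this]
    simp [hP]
  have hsumQ : Q true + Q false = Fintype.card G := by
    have := Finset.card_filter_add_card_filter_not (s := (univ : Finset G))
      (fun x : G => (B x).2 = true)
    rw [Finset.card_univ] at this
    rw [← this]
    simp [hQ]
  have hle : P true * Q true + P false * Q false ≤ (failSet A B).card := by
    rw [← Finset.card_product, ← Finset.card_product, ← Finset.card_union_of_disjoint]
    · apply Finset.card_le_card
      rintro ⟨x, y⟩ hxy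
      simp only [mem_union, mem_product, mem_filter, mem_univ, true_and] at hxy
      rw [mem_failSet]
      rintro ⟨h1, _⟩
      rcases hxy with ⟨h2, h3⟩ | ⟨h2, h3⟩
      · rw [h2, h3] at h1; simp at h1
      · rw [h2, h3] at h1; simp at h1
    · rw [Finset.disjoint_left]
      rintro ⟨x, y⟩ h1 h2
      simp only [mem_product, mem_filter, mem_univ, true_and] at h1 h2
      rw [h1.1] at h2
      simp at h2
  have hneA : ∀ i : Bool, (univ.filter (fun x : G => (A x).2 ≠ i)).card = P (!i) := by
    intro i
    simp only [hP]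
    congr 1
    ext x
    cases i <;> simp
  have hneB : ∀ i : Bool, (univ.filter (fun x : G => (B x).2 ≠ !i)).card = Q i := by
    intro i
    simp only [hQ]
    congr 1
    ext x
    cases i <;> simp
  rcases le_total (P false) (P true) with h | h
  · refine ⟨true, ?_⟩
    rw [hneA, hneB]
    exact parts_arith _ L (P true) (P false) (Q true) (Q false) _ hL hsumP hsumQ
      hle hF h
  · refine ⟨false, ?_⟩
    rw [hneA, hneB]
    exact parts_arith _ L (P false) (P true) (Q false) (Q true) _ hL
      (by rw [add_comm]; exact hsumP) (by rw [add_comm]; exact hsumQ)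
      (by rw [add_comm]; exact hle) hF h

/-- **Main rigidity lemma.** -/
theorem rigid_of_fail_small (f : Cl G → Bool) (A B : G → G × Bool) (hA : Function.Injective A)
    (hP : Pres f A B) (L M : ℕ) (hL : 4 ≤ L)
    (hF : L * (failSet A B).card < Fintype.card G ^ 2)
    (hM : (3 * DD + 4) * Fintype.card G ≤ L * M)
    (h1 : ∀ g : G, g ≠ 1 → M < (univ.filter (fun h : G => f (cl h) ≠ f (cl (h * g)))).card)
    (h2 : M < (univ.filter (fun h : G => f (cl h) = true)).card) :
    ∃ i : Bool, ∀ x, (A x).1 = (B x).1 ∧ (A x).2 = i ∧ (B x).2 = !i := by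
  classical
  obtain ⟨i, hi1, hi2⟩ := exists_part A B L hL hF
  have hne := card_ne_le A B L hF
  set Good := univ.filter (fun x : G => (A x).1 = (B x).1 ∧ (A x).2 = i ∧ (B x).2 = !i) with hGood
  have hGc : Goodᶜ.card ≤ M := by
    have hsub : Goodᶜ ⊆ univ.filter (fun x : G => (A x).1 ≠ (B x).1) ∪
        (univ.filter (fun x : G => (A x).2 ≠ i) ∪ univ.filter (fun x : G => (B x).2 ≠ !i)) := by
      intro x hx
      simp only [hGood, mem_compl, mem_filter, mem_univ, true_and, not_and_or] at hx
      simp only [mem_union, mem_filter, mem_univ, true_and]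
      exact hx
    have hc := Finset.card_le_card hsub
    have hc2 := hc.trans ((Finset.card_union_le _ _).trans
      (Nat.add_le_add_left (Finset.card_union_le _ _) _))
    have h3 : L * Goodᶜ.card ≤ L * M := by
      calc L * Goodᶜ.card ≤ L * ((univ.filter (fun x : G => (A x).1 ≠ (B x).1)).card +
          ((univ.filter (fun x : G => (A x).2 ≠ i)).card +
            (univ.filter (fun x : G => (B x).2 ≠ !i)).card)) := by gcongr
        _ = L * (univ.filter (fun x : G => (A x).1 ≠ (B x).1)).card +
          (L * (univ.filter (fun x : G => (A x).2 ≠ i)).card +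
            L * (univ.filter (fun x : G => (B x).2 ≠ !i)).card) := by ring
        _ ≤ 3 * DD * Fintype.card G + (2 * Fintype.card G + 2 * Fintype.card G) := by gcongr
        _ = (3 * DD + 4) * Fintype.card G := by ring
        _ ≤ L * M := hM
    exact Nat.le_of_mul_le_mul_left h3 (by omega)
  have hgood : ∀ y, y ∈ Good → (A y).1 = (B y).1 ∧ (A y).2 = i ∧ (B y).2 = !i := by
    intro y hy
    exact (Finset.mem_filter.mp hy).2
  have hcount : ∀ x₁ : G, M < (univ.filter (fun y : G => f (cl (y * x₁⁻¹)) = true)).card := by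
    intro x₁
    refine lt_of_lt_of_le h2 ?_
    apply Finset.card_le_card_of_injOn (fun g => g * x₁)
    · intro g hg
      simpa using hg
    · intro g _ g' _ hgg
      exact mul_right_cancel hgg
  have hexg : ∀ x₁ : G, ∃ y ∈ Good, f (cl (y * x₁⁻¹)) = true := by
    intro x₁
    by_contra hcon
    push Not at hcon
    have hsub : univ.filter (fun y : G => f (cl (y * x₁⁻¹)) = true) ⊆ Goodᶜ := by
      intro y hy
      rw [mem_compl]
      intro hyG
      exact hcon y hyG (Finset.mem_filter.mp hy).2
    exact absurd ((hcount x₁).trans_le ((Finset.card_le_card hsub).trans hGc)) (lt_irrefl _)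
  have ha : ∀ x₁, (A x₁).2 = i := by
    intro x₁
    obtain ⟨y, hy, hfy⟩ := hexg x₁
    have h3 := hP x₁ y
    rw [hfy, (hgood y hy).2.2] at h3
    have h4 := (Bool.and_eq_true _ _).mp h3.symm
    have h5 := h4.1
    revert h5
    cases (A x₁).2 <;> cases i <;> simp
  have hb : ∀ x₁, (B x₁).2 = !i := by
    intro x₁
    obtain ⟨y, hy, hfy⟩ := hexg x₁
    have h3 := hP y x₁
    have h3' : cl (x₁ * y⁻¹) = cl (y * x₁⁻¹) := by
      rw [← cl_inv]; congr 1; group
    rw [h3', hfy, (hgood y hy).2.1] at h3
    have h4 := (Bool.and_eq_true _ _).mp h3.symm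
    have h5 := h4.1
    revert h5
    cases (B x₁).2 <;> cases i <;> simp
  refine ⟨i, fun x₁ => ⟨?_, ha x₁, hb x₁⟩⟩
  by_contra hne1
  set α := (A x₁).1 with hα
  set β := (B x₁).1 with hβ
  have hg : α * β⁻¹ ≠ 1 := by
    intro h
    exact hne1 (mul_inv_eq_one.mp h)
  have hkey : ∀ y ∈ Good, f (cl ((A y).1 * α⁻¹)) = f (cl ((A y).1 * β⁻¹)) := by
    intro y hy
    obtain ⟨g1, g2, g3⟩ := hgood y hy
    have e1 := hP x₁ y
    have e2 := hP y x₁
    have h3' : cl (x₁ * y⁻¹) = cl (y * x₁⁻¹) := by
      rw [← cl_inv]; congr 1; group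
    have h4' : cl ((B x₁).1 * ((A y).1)⁻¹) = cl ((A y).1 * β⁻¹) := by
      rw [← cl_inv]; congr 1; rw [hβ]; group
    rw [h3', h4', g2, hb x₁] at e2
    rw [g3, ha x₁, ← g1] at e1
    have hx : xor i (!i) = true := by cases i <;> rfl
    rw [hx, Bool.true_and] at e1 e2
    rw [← e1, ← e2]
  have hlt := h1 _ hg
  have hle : (univ.filter (fun h : G => f (cl h) ≠ f (cl (h * (α * β⁻¹))))).card ≤ M := by
    refine le_trans ?_ hGc
    set T := Good.image (fun y => (A y).1 * α⁻¹) with hT
    have hTc : T.card = Good.card := by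
      apply Finset.card_image_of_injOn
      intro y hy y' hy' hyy
      have e1 := mul_right_cancel hyy
      have e2 : (A y).2 = (A y').2 := by
        rw [ha, ha]
      exact hA (Prod.ext e1 e2)
    have hsub : univ.filter (fun h : G => f (cl h) ≠ f (cl (h * (α * β⁻¹)))) ⊆ Tᶜ := by
      intro h hh
      rw [mem_compl]
      intro hhT
      obtain ⟨y, hy, rfl⟩ := Finset.mem_image.mp hhT
      apply (Finset.mem_filter.mp hh).2
      have e3 : (A y).1 * α⁻¹ * (α * β⁻¹) = (A y).1 * β⁻¹ := by group
      rw [e3]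
      exact hkey y hy
    refine (Finset.card_le_card hsub).trans ?_
    rw [Finset.card_compl, Finset.card_compl, hTc]
  exact absurd (hlt.trans_le hle) (lt_irrefl _)

end Pool.Agent.StabCay
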