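import Pool.Agent.StabCay.Params
import Pool.Agent.StabCay.Rigid
import Pool.Agent.StabCay.Generic

/-!
Almost all class functions are rigid.
-/

namespace Pool.Agent.StabCay

open Finset

universe u

/-- every pair of maps preserving `f` comes from one map -/
def GoodF {G : Type u} [Group G] (f : Cl G → Bool) : Prop :=
  ∀ A B : G → G × Bool, Function.Injective A → Pres f A B →
    ∃ i : Bool, ∀ x, (A x).1 = (B x).1 ∧ (A x).2 = i ∧ (B x).2 = !i

variable {G : Type u} [Group G] [Fintype G] [DecidableEq G]

open Classical in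
lemma card_notGood_le (b L K M k l : ℕ) (hn2 : 2 ≤ Fintype.card G)
    (hb : 0 < b) (hL : 4 ≤ L) (hK : 4 * L * K ≤ b ^ 2) (h8 : 8 * L * b ^ 4 ≤ Fintype.card G)
    (hM : (3 * DD + 4) * Fintype.card G ≤ L * M) (hk : 16 * k + 4 * (2 * M) ≤ Fintype.card G)
    (hK2 : 4 * b * l + l ≤ K) (hk2 : l * (2 * M + 1) + l ≤ k)
    (hl : 2 * Fintype.card G ≤ 2 ^ l) :
    (univ.filter (fun f : Cl G → Bool => ¬ GoodF f)).card * Fintype.card G
      ≤ 2 ^ Fintype.card (Cl G) := by
  set n := Fintype.card G with hn
  set S1 := univ.filter (fun f : Cl G → Bool => ∃ A B : G → G × Bool, Pres f A B ∧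
      Fintype.card G ^ 2 ≤ L * (failSet A B).card) with hS1
  set S2 := univ.filter (fun f : Cl G → Bool => ∃ g : G, g ≠ 1 ∧
      (univ.filter (fun h : G => f (cl h) ≠ f (cl (h * g)))).card ≤ 2 * M) with hS2
  have hsub : univ.filter (fun f : Cl G → Bool => ¬ GoodF f) ⊆ S1 ∪ S2 := by
    intro f hf
    by_contra hcon
    rw [Finset.mem_union, not_or] at hcon
    obtain ⟨hc1, hc2⟩ := hcon
    apply (Finset.mem_filter.mp hf).2
    intro A B hA hP
    have hF : L * (failSet A B).card < Fintype.card G ^ 2 := by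
      by_contra h
      push Not at h
      exact hc1 (Finset.mem_filter.mpr ⟨Finset.mem_univ _, A, B, hP, h⟩)
    have hper : ∀ g : G, g ≠ 1 →
        2 * M < (univ.filter (fun h : G => f (cl h) ≠ f (cl (h * g)))).card := by
      intro g hg
      by_contra h
      push Not at h
      exact hc2 (Finset.mem_filter.mpr ⟨Finset.mem_univ _, g, hg, h⟩)
    apply rigid_of_fail_small f A B hA hP L M hL hF hM
    · intro g hg
      have := hper g hg
      omega
    · -- the support is large
      have : Nontrivial G := Fintype.one_lt_card_iff_nontrivial.mp (by omega)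
      obtain ⟨g, hg⟩ := exists_ne (1 : G)
      have h1 := hper g hg
      have h2 : (univ.filter (fun h : G => f (cl h) ≠ f (cl (h * g)))).card
          ≤ (univ.filter (fun h : G => f (cl h) = true)).card
            + (univ.filter (fun h : G => f (cl (h * g)) = true)).card := by
        refine le_trans (Finset.card_le_card ?_) (Finset.card_union_le _ _)
        intro h hh
        have hne := (Finset.mem_filter.mp hh).2
        rw [Finset.mem_union, Finset.mem_filter, Finset.mem_filter]
        by_cases hfh : f (cl h) = true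
        · exact Or.inl ⟨Finset.mem_univ _, hfh⟩
        · right
          refine ⟨Finset.mem_univ _, ?_⟩
          revert hne hfh
          cases f (cl h) <;> cases f (cl (h * g)) <;> simp
      have h3 : (univ.filter (fun h : G => f (cl (h * g)) = true)).card
          ≤ (univ.filter (fun h : G => f (cl h) = true)).card := by
        apply Finset.card_le_card_of_injOn (fun h => h * g)
        · intro h hh
          simpa using hh
        · intro a _ b _ hab
          exact mul_right_cancel hab
      omega
  have hb1 : S1.card * 2 ^ l ≤ 2 ^ Fintype.card (Cl G) := by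
    have h1 := card_bad_le (G := G) b L K hb (by omega) hK h8
    have h2 : n ^ (2 * b) * (2 * n) ^ (2 * b) ≤ 2 ^ (4 * b * l) := by
      calc n ^ (2 * b) * (2 * n) ^ (2 * b) ≤ (2 ^ l) ^ (2 * b) * (2 ^ l) ^ (2 * b) := by
            gcongr
            omega
        _ = 2 ^ (4 * b * l) := by
            rw [← pow_mul, ← pow_add]; congr 1; ring
    have h3 : 2 ^ (4 * b * l) * (S1.card * 2 ^ l) ≤ 2 ^ (4 * b * l) * 2 ^ Fintype.card (Cl G) := by
      calc 2 ^ (4 * b * l) * (S1.card * 2 ^ l) = S1.card * 2 ^ (4 * b * l + l) := by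
            rw [pow_add]; ring
        _ ≤ S1.card * 2 ^ K := by
            gcongr
            norm_num
        _ ≤ n ^ (2 * b) * (2 * n) ^ (2 * b) * 2 ^ Fintype.card (Cl G) := h1
        _ ≤ _ := by gcongr
    exact Nat.le_of_mul_le_mul_left h3 (by positivity)
  have hb2 : S2.card * 2 ^ l ≤ 2 ^ Fintype.card (Cl G) := by
    have h1 := card_periodic_le (G := G) k (2 * M) hk
    have h2 : n * (n + 1) ^ (2 * M) ≤ 2 ^ (l * (2 * M + 1)) := by
      calc n * (n + 1) ^ (2 * M) ≤ 2 ^ l * (2 ^ l) ^ (2 * M) := by
            gcongr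
            · omega
            · omega
        _ = 2 ^ (l * (2 * M + 1)) := by
            rw [← pow_mul, ← pow_add]; congr 1; ring
    have h3 : 2 ^ (l * (2 * M + 1)) * (S2.card * 2 ^ l)
        ≤ 2 ^ (l * (2 * M + 1)) * 2 ^ Fintype.card (Cl G) := by
      calc 2 ^ (l * (2 * M + 1)) * (S2.card * 2 ^ l) = S2.card * 2 ^ (l * (2 * M + 1) + l) := by
            rw [pow_add]; ring
        _ ≤ S2.card * 2 ^ k := by
            gcongr
            norm_num
        _ ≤ n * (n + 1) ^ (2 * M) * 2 ^ Fintype.card (Cl G) := by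
            convert h1 using 2
        _ ≤ _ := by gcongr
    exact Nat.le_of_mul_le_mul_left h3 (by positivity)
  have hcard : (univ.filter (fun f : Cl G → Bool => ¬ GoodF f)).card ≤ S1.card + S2.card :=
    (Finset.card_le_card hsub).trans (Finset.card_union_le _ _)
  have h4 : 2 * ((univ.filter (fun f : Cl G → Bool => ¬ GoodF f)).card * n)
      ≤ 2 * 2 ^ Fintype.card (Cl G) := by
    calc 2 * ((univ.filter (fun f : Cl G → Bool => ¬ GoodF f)).card * n)
        = (univ.filter (fun f : Cl G → Bool => ¬ GoodF f)).card * (2 * n) := by ring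
      _ ≤ (S1.card + S2.card) * 2 ^ l := by gcongr
      _ = S1.card * 2 ^ l + S2.card * 2 ^ l := by ring
      _ ≤ 2 * 2 ^ Fintype.card (Cl G) := by omega
  exact Nat.le_of_mul_le_mul_left h4 (by norm_num)

open Classical in
/-- for all large finite groups at most a fraction `1/n` of all class functions is not rigid -/
theorem notGood_large : ∃ r₀ : ℕ, 2 ≤ r₀ ∧ ∀ (G : Type u) [Group G] [Fintype G],
    r₀ ≤ Fintype.card G →
    (univ.filter (fun f : Cl G → Bool => ¬ GoodF f)).card * Fintype.card G
      ≤ 2 ^ Fintype.card (Cl G) := by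
  obtain ⟨r₀, h2, h⟩ := exists_threshold (3 * DD + 4)
  refine ⟨r₀, h2, ?_⟩
  intro G _ _ hG
  obtain ⟨ha, hb⟩ := h _ hG
  obtain ⟨b, L, K, M, k, p1, p2, p3, p4, p5, p6, p7, p8⟩ :=
    params_of_large (3 * DD + 4) (Fintype.card G) (Nat.log 2 (Fintype.card G) + 2)
      (le_trans (by norm_num : 1 ≤ 4) (Nat.le_add_left 4 (3 * DD))) ha hb
  have hl : 2 * Fintype.card G ≤ 2 ^ (Nat.log 2 (Fintype.card G) + 2) := by
    have := Nat.lt_pow_succ_log_self (b := 2) (by norm_num) (Fintype.card G)
    rw [pow_succ]
    simp only [Nat.succ_eq_add_one] at this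
    omega
  exact card_notGood_le b L K M k _ (h2.trans hG) p1 p2 p3 p4 p5 p6 p7 p8 hl

end Pool.Agent.StabCay
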