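import Mathlib

/-!
The choice of parameters.
-/

namespace Pool.Agent.StabCay

/-- parameters for large `n` -/
lemma params_of_large (c0 n l : ℕ) (hc0 : 1 ≤ c0) (hl : 1000 * c0 ≤ l) (hn : 8 * l ^ 18 ≤ n) :
    ∃ b L K M k : ℕ, 0 < b ∧ 4 ≤ L ∧ 4 * L * K ≤ b ^ 2 ∧ 8 * L * b ^ 4 ≤ n ∧
      c0 * n ≤ L * M ∧ 16 * k + 4 * (2 * M) ≤ n ∧ 4 * b * l + l ≤ K ∧
      l * (2 * M + 1) + l ≤ k := by
  have hl1000 : 1000 ≤ l := by omega
  refine ⟨l ^ 4, l ^ 2, l ^ 6 / 4, c0 * n / l ^ 2 + 1, n / 32, ?_, ?_, ?_, ?_, ?_, ?_, ?_, ?_⟩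
  · positivity
  · calc 4 ≤ 1000 ^ 2 := by norm_num
      _ ≤ l ^ 2 := by gcongr
  · calc 4 * l ^ 2 * (l ^ 6 / 4) = l ^ 2 * (4 * (l ^ 6 / 4)) := by ring
      _ ≤ l ^ 2 * l ^ 6 := by gcongr; exact Nat.mul_div_le _ _
      _ = (l ^ 4) ^ 2 := by ring
  · calc 8 * l ^ 2 * (l ^ 4) ^ 4 = 8 * l ^ 18 := by ring
      _ ≤ n := hn
  · have := Nat.lt_mul_div_succ (c0 * n) (show 0 < l ^ 2 by positivity)
    exact this.le
  all_goals
    set M := c0 * n / l ^ 2 + 1 with hM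
    have hlM : l ^ 2 * M ≤ c0 * n + l ^ 2 := by
      rw [hM, mul_add, mul_one]
      exact Nat.add_le_add_right (Nat.mul_div_le _ _) _
    have hl17 : 1000 * l ≤ n := by
      calc 1000 * l ≤ 8 * (1000 ^ 17 * l) := by
            have : (1000 : ℕ) ≤ 8 * 1000 ^ 17 := by norm_num
            calc 1000 * l ≤ (8 * 1000 ^ 17) * l := by gcongr
              _ = _ := by ring
        _ ≤ 8 * (l ^ 17 * l) := by gcongr
        _ = 8 * l ^ 18 := by ring
        _ ≤ n := hn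
    have hl2 : l ^ 2 ≤ n := by
      calc l ^ 2 ≤ 8 * l ^ 18 := by
            calc l ^ 2 ≤ l ^ 18 := Nat.pow_le_pow_right (by omega) (by norm_num)
              _ ≤ 8 * l ^ 18 := by omega
        _ ≤ n := hn
    have h500 : 500 * (l * M) ≤ n := by
      have h1 : (2 * c0) * (500 * (l * M)) ≤ (2 * c0) * n := by
        calc (2 * c0) * (500 * (l * M)) = (1000 * c0) * (l * M) := by ring
          _ ≤ l * (l * M) := by gcongr
          _ = l ^ 2 * M := by ring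
          _ ≤ c0 * n + l ^ 2 := hlM
          _ ≤ c0 * n + c0 * n := by
              gcongr
              calc l ^ 2 ≤ n := hl2
                _ = 1 * n := by ring
                _ ≤ c0 * n := by gcongr
          _ = (2 * c0) * n := by ring
      exact Nat.le_of_mul_le_mul_left h1 (by positivity)
    have hMl : M ≤ l * M := Nat.le_mul_of_pos_left _ (by omega)
  · omega
  · rw [Nat.le_div_iff_mul_le (by norm_num)]
    calc (4 * l ^ 4 * l + l) * 4 = 16 * l ^ 5 + 4 * l ^ 1 := by ring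
      _ ≤ 16 * l ^ 5 + 4 * l ^ 5 := by
          gcongr 16 * l ^ 5 + 4 * ?_
          exact Nat.pow_le_pow_right (by omega) (by norm_num)
      _ = 20 * l ^ 5 := by ring
      _ ≤ l * l ^ 5 := by gcongr; omega
      _ = l ^ 6 := by ring
  · rw [Nat.le_div_iff_mul_le (by norm_num)]
    have : (l * (2 * M + 1) + l) * 32 = 64 * (l * M) + 64 * l := by ring
    rw [this]
    omega

lemma exists_threshold (c0 : ℕ) : ∃ r₀ : ℕ, 2 ≤ r₀ ∧ ∀ n, r₀ ≤ n →
    1000 * c0 ≤ Nat.log 2 n + 2 ∧ 8 * (Nat.log 2 n + 2) ^ 18 ≤ n := by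
  have h := tendsto_pow_const_div_const_pow_of_one_lt 18 (show (1 : ℝ) < 2 by norm_num)
  have h2 := h.eventually (gt_mem_nhds (show (0 : ℝ) < 1 / 32 by norm_num))
  obtain ⟨N, hN⟩ := Filter.eventually_atTop.mp h2
  refine ⟨2 ^ (N + 1000 * c0 + 1), ?_, ?_⟩
  · calc 2 = 2 ^ 1 := by norm_num
      _ ≤ 2 ^ (N + 1000 * c0 + 1) := Nat.pow_le_pow_right (by norm_num) (by omega)
  · intro n hn
    have hn0 : n ≠ 0 := by
      have : 0 < 2 ^ (N + 1000 * c0 + 1) := by positivity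
      omega
    have hlog : N + 1000 * c0 + 1 ≤ Nat.log 2 n := by
      apply Nat.le_log_of_pow_le (by norm_num) hn
    refine ⟨by omega, ?_⟩
    have h3 := hN (Nat.log 2 n + 2) (by omega)
    rw [div_lt_iff₀ (by positivity)] at h3
    have h4 : (2 : ℝ) ^ (Nat.log 2 n) ≤ n := by
      have := Nat.pow_log_le_self 2 hn0
      exact_mod_cast this
    have h5 : (8 : ℝ) * ((Nat.log 2 n + 2 : ℕ) : ℝ) ^ 18 ≤ n := by
      calc (8 : ℝ) * ((Nat.log 2 n + 2 : ℕ) : ℝ) ^ 18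
          ≤ 8 * (1 / 32 * 2 ^ (Nat.log 2 n + 2)) := by gcongr
        _ = 2 ^ (Nat.log 2 n) := by rw [pow_add]; ring
        _ ≤ n := h4
    exact_mod_cast h5

end Pool.Agent.StabCay
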